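import Pool.Agent.Lib.MP_5c318e_ag.G.Liou
import Pool.Agent.Lib.MP_5c318e_ag.V.HM
import Pool.Agent.Lib.MP_5c318e_ag.RD.RCalc

/-! Finite charts: sheet sums and the Liouville theorem on a Riemann domain that is proper over the
complement of a hypersurface. -/

set_option autoImplicit false
set_option linter.unusedSectionVars false

namespace Pool.Agent.Lib.MP_5c318e_ag.G

open Complex Filter Topology Set Metric
open Pool.Agent.Lib.MP_5c318e_ag.V
open scoped ContDiff

noncomputable section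

variable {ι : Type} [Fintype ι] {S : Type} [TopologicalSpace S] [MeasurableSpace S]

/-- `D` is proper over the complement of the zeros of `q` -/
structure Prp (D : RD ι S) (q : (ι → ℂ) → ℂ) : Prop where
  pol : PolyG q
  ne : ∀ x, q (D.π x) ≠ 0
  cpt : ∀ K, IsCompact K → (∀ z ∈ K, q z ≠ 0) → IsCompact (D.π ⁻¹' K)

/-- properness from an exhaustion function that is bounded by a function on the base -/
theorem Prp.of_exh {D : RD ι S} {q : (ι → ℂ) → ℂ} (hq : PolyG q) (h0 : ∀ x, q (D.π x) ≠ 0)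
    {ψ : S → ℝ} (hψ : ∀ c, IsCompact {x | ψ x ≤ c}) {Ψ : (ι → ℂ) → ℝ}
    (hΨ : ContinuousOn Ψ {z | q z ≠ 0}) (hle : ∀ x, ψ x ≤ Ψ (D.π x)) : Prp D q :=
  ⟨hq, h0, fun K hK hKq => by
    obtain ⟨c, hc⟩ := (hK.image_of_continuousOn (hΨ.mono hKq)).isBounded.bddAbove
    exact (hψ c).of_isClosed_subset (hK.isClosed.preimage D.cont_π)
      fun x hx => (hle x).trans (hc ⟨_, hx, rfl⟩)⟩

theorem polyG_mv (P : MvPolynomial ι ℂ) : PolyG fun z : ι → ℂ => MvPolynomial.eval z P := by
  induction P using MvPolynomial.induction_on with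
  | C a => exact ⟨by simp, ‖a‖, 0, by simp⟩
  | add p q hp hq =>
    obtain ⟨C, N, h⟩ := hp.grow
    obtain ⟨C', N', h'⟩ := hq.grow
    refine ⟨by simpa only [map_add] using hp.hol.fun_add hq.hol, |C| + |C'|, N + N', fun z => ?_⟩
    have a : 1 ≤ 1 + ‖z‖ := by linarith [norm_nonneg z]
    have b : (1 + ‖z‖) ^ N ≤ (1 + ‖z‖) ^ (N + N') := pow_le_pow_right₀ a (by omega)
    have c : (1 + ‖z‖) ^ N' ≤ (1 + ‖z‖) ^ (N + N') := pow_le_pow_right₀ a (by omega)
    rw [map_add, add_mul]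
    exact (norm_add_le _ _).trans (add_le_add ((h z).trans (by gcongr; exact le_abs_self _))
      ((h' z).trans (by gcongr; exact le_abs_self _)))
  | mul_X p i hp =>
    obtain ⟨C, N, h⟩ := hp.grow
    refine ⟨by simpa only [map_mul, MvPolynomial.eval_X] using
      hp.hol.fun_mul (differentiable_apply i), |C|, N + 1, fun z => ?_⟩
    rw [map_mul, MvPolynomial.eval_X, norm_mul, pow_succ, ← mul_assoc]
    have a : ‖z i‖ ≤ 1 + ‖z‖ := by linarith [norm_le_pi_norm z i]
    exact mul_le_mul ((h z).trans (by gcongr; exact le_abs_self _)) a (norm_nonneg _)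
      (by positivity)

/-- the sum over the sheets -/
def fsum {M : Type*} [AddCommMonoid M] (D : RD ι S) (u : S → M) (z : ι → ℂ) : M :=
  ∑ᶠ y ∈ D.π ⁻¹' {z}, u y

namespace Prp

variable {D : RD ι S} {q : (ι → ℂ) → ℂ}

theorem fin (P : Prp D q) (z : ι → ℂ) : (D.π ⁻¹' {z}).Finite := by
  by_cases hz : q z = 0
  · convert finite_empty
    refine eq_empty_of_forall_notMem fun x hx => P.ne x ?_
    rw [show D.π x = z from hx, hz]
  obtain ⟨t, ht, hc⟩ := (P.cpt {z} isCompact_singleton (by simpa using hz)).elim_nhds_subcover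
    (fun x => (D.ch x).source) fun x _ => (D.ch x).open_source.mem_nhds (D.mem_src x)
  refine t.finite_toSet.subset fun y hy => ?_
  obtain ⟨x, hx, hxy⟩ := mem_iUnion₂.1 (hc hy)
  have : y = x := D.injOn_src x hxy (D.mem_src x) ((show D.π y = z from hy).trans (ht x hx).symm)
  exact this ▸ hx

variable [T2Space S]

/-- near a point of the base the local sections through the fibre give all the sheets -/
theorem bij_ev (P : Prp D q) {z0 : ι → ℂ} (h0 : q z0 ≠ 0) :
    ∀ᶠ z in 𝓝 z0, BijOn (fun x => D.sec x z) (D.π ⁻¹' {z0}) (D.π ⁻¹' {z}) := by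
  have hF := P.fin z0
  have e1 : ∀ᶠ z in 𝓝 z0, ∀ x ∈ D.π ⁻¹' {z0}, D.π (D.sec x z) = z :=
    (eventually_all_finite hF).2 fun x hx => (show D.π x = z0 from hx) ▸ D.π_sec_ev x
  have e2 : ∀ᶠ z in 𝓝 z0, ∀ x ∈ D.π ⁻¹' {z0}, ∀ y ∈ D.π ⁻¹' {z0},
      D.sec x z = D.sec y z → x = y :=
    (eventually_all_finite hF).2 fun x hx => (eventually_all_finite hF).2 fun y hy => by
      by_cases hxy : x = y
      · exact Eventually.of_forall fun _ _ => hxy
      have tx := D.tendsto_sec x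
      have ty := D.tendsto_sec y
      rw [show D.π x = z0 from hx] at tx
      rw [show D.π y = z0 from hy] at ty
      obtain ⟨U, V, hU, hV, d⟩ := t2_separation_nhds hxy
      filter_upwards [tx.eventually hU, ty.eventually hV] with z a b h
      exact absurd (h ▸ a) (disjoint_right.1 d b)
  obtain ⟨r, hr, hr'⟩ := nhds_basis_closedBall.eventually_iff.1
    (P.pol.hol.continuous.continuousAt.eventually_ne h0)
  have cK := (P.cpt _ (isCompact_closedBall z0 r) fun z hz => hr' hz).diff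
    (isOpen_biUnion (s := D.π ⁻¹' {z0}) fun x _ => (D.ch x).open_source)
  have nK : (D.π '' (D.π ⁻¹' closedBall z0 r \ ⋃ x ∈ D.π ⁻¹' {z0}, (D.ch x).source))ᶜ ∈ 𝓝 z0 := by
    refine (cK.image D.cont_π).isClosed.isOpen_compl.mem_nhds ?_
    rintro ⟨y, ⟨-, hy⟩, hy0⟩
    exact hy (mem_biUnion hy0 (D.mem_src y))
  filter_upwards [e1, e2, nK, closedBall_mem_nhds z0 hr] with z a b c d
  refine ⟨fun x hx => a x hx, fun x hx y hy h => b x hx y hy h, fun y hy => ?_⟩
  have hy' : D.π y = z := hy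
  by_contra hn
  refine c ⟨y, ⟨by simpa [hy'] using d, fun h => ?_⟩, hy'⟩
  obtain ⟨x, hx, hxy⟩ := mem_iUnion₂.1 h
  exact hn ⟨x, hx, hy' ▸ RD.sec_π hxy⟩

theorem fsum_ev (P : Prp D q) {M : Type*} [AddCommMonoid M] (u : S → M) {z0 : ι → ℂ}
    (h0 : q z0 ≠ 0) :
    fsum D u =ᶠ[𝓝 z0] fun z => ∑ x ∈ (P.fin z0).toFinset, u (D.sec x z) := by
  filter_upwards [P.bij_ev h0] with z hz
  rw [fsum, ← finsum_mem_eq_of_bijOn (f := fun x => u (D.sec x z)) _ hz fun _ _ => rfl,
    finsum_mem_eq_finite_toFinset_sum]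

omit [T2Space S] in
theorem fsum_eq (P : Prp D q) {M : Type*} [AddCommMonoid M] (u : S → M) (z : ι → ℂ) :
    fsum D u z = ∑ x ∈ (P.fin z).toFinset, u x := finsum_mem_eq_finite_toFinset_sum _ _

/-- the number of sheets is constant -/
theorem sheets (P : Prp D q) : ∃ d : ℕ, ∀ z, q z ≠ 0 → (P.fin z).toFinset.card = d := by
  by_cases h : ∃ z0, q z0 ≠ 0
  swap
  · exact ⟨0, fun z hz => absurd ⟨z, hz⟩ h⟩
  obtain ⟨z0, h0⟩ := h
  refine ⟨(P.fin z0).toFinset.card, fun z hz => ?_⟩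
  have := liou_space (f := fsum D fun _ => (-1 : ℝ)) P.pol
    (fun z hz => contDiffAt_const.congr_of_eventuallyEq (P.fsum_ev _ hz))
    (fun z hz ξ => by rw [lev_congr (P.fsum_ev _ hz)]; simp)
    (SubLog.of_bdd (B := 0) fun z _ => by rw [P.fsum_eq]; simp) hz h0
  rw [P.fsum_eq, P.fsum_eq] at this
  simpa using this

/-- growth smaller than every multiple of the logarithmic exhaustion, upstairs -/
def _root_.Pool.Agent.Lib.MP_5c318e_ag.G.SubLogD (D : RD ι S) (q : (ι → ℂ) → ℂ) (u : S → ℝ) :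
    Prop :=
  ∀ ε > 0, ∃ B, ∀ x, u x ≤ B + ε * (Real.log (1 + ‖D.π x‖) + |Real.log ‖q (D.π x)‖|)

omit [T2Space S] in
theorem _root_.Pool.Agent.Lib.MP_5c318e_ag.G.SubLogD.of_bdd {u : S → ℝ} {B : ℝ}
    (h : ∀ x, u x ≤ B) : SubLogD D q u :=
  fun ε hε => ⟨B, fun x => by
    have : 0 ≤ Real.log (1 + ‖D.π x‖) := Real.log_nonneg (by linarith [norm_nonneg (D.π x)])
    have := h x
    have : 0 ≤ ε * (Real.log (1 + ‖D.π x‖) + |Real.log ‖q (D.π x)‖|) := by positivity
    linarith⟩

/-- LIOUVILLE, first form: the Levi form vanishes -/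
theorem levi_zero (P : Prp D q) {u : S → ℝ}
    (hs : ∀ x, ContDiffAt ℝ 2 (fun z => u (D.sec x z)) (D.π x)) (hl : ∀ x ξ, 0 ≤ D.levi u x ξ)
    (hb : SubLogD D q u) (x : S) (ξ : ι → ℂ) : D.levi u x ξ = 0 := by
  obtain ⟨d, hd⟩ := P.sheets
  have hs' : ∀ z, ∀ y ∈ (P.fin z).toFinset, ContDiffAt ℝ 2 (fun w => u (D.sec y w)) z :=
    fun z y hy => (show D.π y = z from (P.fin z).mem_toFinset.1 hy) ▸ hs y
  have hv : ∀ z, q z ≠ 0 → ∀ η, lev (fsum D u) z η = ∑ y ∈ (P.fin z).toFinset, D.levi u y η :=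
    fun z hz η => by
    rw [lev_congr (P.fsum_ev u hz), lev_sum _ (hs' z)]
    refine Finset.sum_congr rfl fun y hy => ?_
    rw [← show D.π y = z from (P.fin z).mem_toFinset.1 hy]
    rfl
  have c : ∀ z, q z ≠ 0 → fsum D u z = fsum D u (D.π x) := fun z hz =>
    liou_space P.pol (fun z hz => (ContDiffAt.sum (hs' z)).congr_of_eventuallyEq (P.fsum_ev u hz))
      (fun z hz η => by rw [hv z hz]; exact Finset.sum_nonneg fun y _ => hl y η)
      (fun ε hε => by
        obtain ⟨B, hB⟩ := hb (ε / (d + 1)) (by positivity)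
        refine ⟨d * B, fun z hz => ?_⟩
        have a : 0 ≤ Real.log (1 + ‖z‖) + |Real.log ‖q z‖| :=
          add_nonneg (Real.log_nonneg (by linarith [norm_nonneg z])) (abs_nonneg _)
        have b := Finset.sum_le_card_nsmul (P.fin z).toFinset u
          (B + ε / (d + 1) * (Real.log (1 + ‖z‖) + |Real.log ‖q z‖|)) fun y hy =>
            (show D.π y = z from (P.fin z).mem_toFinset.1 hy) ▸ hB y
        rw [hd z hz, nsmul_eq_mul] at b
        have e : (d : ℝ) * (ε / (d + 1)) ≤ ε := by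
          rw [mul_div_assoc', div_le_iff₀ (by positivity)]
          nlinarith
        rw [P.fsum_eq]
        nlinarith [mul_le_mul_of_nonneg_right e a]) hz (P.ne x)
  have e : fsum D u =ᶠ[𝓝 (D.π x)] fun _ => fsum D u (D.π x) :=
    (P.pol.hol.continuous.continuousAt.eventually_ne (P.ne x)).mono c
  have z := hv _ (P.ne x) ξ
  rw [lev_congr e, lev_const] at z
  exact (Finset.sum_eq_zero_iff_of_nonneg fun y _ => hl y ξ).1 z.symm x (by simp)

end Prp

/-- a function with zero derivative in all charts is locally constant -/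
theorem locConst_of_fderiv (D : RD ι S) {F : Type} [NormedAddCommGroup F] [NormedSpace ℝ F]
    {u : S → F} (hs : ∀ x, DifferentiableAt ℝ (fun z => u (D.sec x z)) (D.π x))
    (h0 : ∀ x, fderiv ℝ (fun z => u (D.sec x z)) (D.π x) = 0) : IsLocallyConstant u := by
  refine (IsLocallyConstant.iff_eventually_eq u).2 fun x => ?_
  obtain ⟨r, hr, hr'⟩ := Metric.mem_nhds_iff.1 (RD.tgt_nhds (D.mem_tgt x))
  have a : ∀ z ∈ ball (D.π x) r, DifferentiableAt ℝ (fun w => u (D.sec x w)) z ∧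
      fderiv ℝ (fun w => u (D.sec x w)) z = 0 := fun z hz => by
    have e := RD.germ_f u (hr' hz)
    have h1 := hs (D.sec x z)
    have h2 := h0 (D.sec x z)
    rw [RD.π_sec (hr' hz)] at h1 h2
    exact ⟨h1.congr_of_eventuallyEq e, e.fderiv_eq.trans h2⟩
  filter_upwards [D.cont_π.continuousAt.eventually (ball_mem_nhds _ hr),
    (D.ch x).open_source.mem_nhds (D.mem_src x)] with y h1 h2
  have := isOpen_ball.is_const_of_fderiv_eq_zero (convex_ball _ r).isPreconnected
    (fun z hz => (a z hz).1.differentiableWithinAt) (fun z hz => (a z hz).2) h1 (mem_ball_self hr)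
  rwa [RD.sec_π h2, D.sec_self] at this

/-- LIOUVILLE on a finite chart -/
theorem Prp.liouville [T2Space S] {D : RD ι S} {q : (ι → ℂ) → ℂ} (P : Prp D q) {u : S → ℝ}
    (hs : ∀ x, ContDiffAt ℝ 2 (fun z => u (D.sec x z)) (D.π x)) (hl : ∀ x ξ, 0 ≤ D.levi u x ξ)
    (hb : SubLogD D q u) : IsLocallyConstant u := by
  let χ : ℝ → ℝ := fun t => Real.log (1 + Real.exp t)
  have p : ∀ t, 0 < 1 + Real.exp t := fun t => by positivity
  have cχ : ContDiff ℝ 2 χ := (contDiff_const.add Real.contDiff_exp).log fun t => (p t).ne'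
  have d1 : deriv χ = fun t => 1 - (1 + Real.exp t)⁻¹ := by
    funext t
    rw [(((Real.hasDerivAt_exp t).const_add 1).log (p t).ne').deriv]
    have := p t
    field_simp
    ring
  have d2 : ∀ t, 0 < deriv (deriv χ) t := fun t => by
    rw [d1, ((((Real.hasDerivAt_exp t).const_add 1).fun_inv (p t).ne').const_sub 1).deriv,
      neg_div, neg_neg]
    have := p t
    positivity
  have l : ∀ x ξ, D.levi (fun y => χ (u y)) x ξ = deriv (deriv χ) (u x) *
      ‖der (-I) ξ (fun z => (u (D.sec x z) : ℂ)) (D.π x)‖ ^ 2 := fun x ξ => by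
    have := lev_comp_real (ξ := ξ) (χ := χ) cχ.contDiffAt (hs x)
    rw [show lev (fun z => u (D.sec x z)) (D.π x) ξ = 0 from P.levi_zero hs hl hb x ξ,
      D.sec_self, mul_zero, zero_add] at this
    exact this
  have z := P.levi_zero (u := fun y => χ (u y)) (fun x => cχ.contDiffAt.comp _ (hs x))
    (fun x ξ => by rw [l]; exact mul_nonneg (d2 _).le (sq_nonneg _)) fun ε hε => by
      obtain ⟨B, hB⟩ := hb ε hε
      refine ⟨|B| + 1, fun x => ?_⟩
      have a : 0 ≤ ε * (Real.log (1 + ‖D.π x‖) + |Real.log ‖q (D.π x)‖|) :=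
        mul_nonneg hε.le (add_nonneg (Real.log_nonneg (by linarith [norm_nonneg (D.π x)]))
          (abs_nonneg _))
      have b := hB x
      generalize ε * _ = A at a b
      refine (Real.log_le_iff_le_exp (p _)).2 ?_
      have c1 : Real.exp (u x) ≤ Real.exp (|B| + A) :=
        Real.exp_le_exp.2 (by linarith [le_abs_self B])
      have c2 : 1 ≤ Real.exp (|B| + A) := Real.one_le_exp (by positivity)
      have c3 : Real.exp (|B| + 1 + A) = Real.exp (|B| + A) * Real.exp 1 := by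
        rw [← Real.exp_add]; ring_nf
      nlinarith [Real.add_one_le_exp 1]
  refine locConst_of_fderiv D (fun x => (hs x).differentiableAt (by norm_num)) fun x => ?_
  ext1 ξ
  have a := z x ξ
  rw [l, mul_eq_zero, or_iff_right (d2 _).ne',
    norm_d_ofReal_sq ((hs x).differentiableAt (by norm_num))] at a
  change fderiv ℝ _ _ ξ = 0
  nlinarith [sq_nonneg (fderiv ℝ (fun z => u (D.sec x z)) (D.π x) (I • ξ))]

/-- the bounded case for smooth functions -/
theorem Prp.liouville_bdd [T2Space S] {D : RD ι S} {q : (ι → ℂ) → ℂ} (P : Prp D q) {u : S → ℝ}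
    (hu : D.Psh u) {B : ℝ} (hb : ∀ x, u x ≤ B) : IsLocallyConstant u :=
  P.liouville hu.1.two hu.2 (SubLogD.of_bdd hb)

end

end Pool.Agent.Lib.MP_5c318e_ag.G
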