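import Pool.Agent.Lib.MP_5c318e_ag.V.Lev

/-! Liouville theorem for plurisubharmonic functions off a hypersurface of polynomial type. -/

set_option autoImplicit false

namespace Pool.Agent.Lib.MP_5c318e_ag.G

open Complex Filter Topology Set Metric
open Pool.Agent.Lib.MP_5c318e_ag.V
open scoped ContDiff

noncomputable section

/-- the barrier -/
def bar (q : ℂ → ℂ) (N : ℕ) (z : ℂ) : ℝ :=
  (N + 1 : ℝ) * Real.log ‖z‖ - Real.log ‖q z‖ - ‖z⁻¹‖ ^ 2

theorem bar_sm {q : ℂ → ℂ} (hq : Differentiable ℂ q) (N : ℕ) {z : ℂ} (hz : z ≠ 0) (h : q z ≠ 0) :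
    ContDiffAt ℝ 2 (bar q N) z ∧ lev (bar q N) z 1 < 0 := by
  have cq : ContDiffAt ℂ 2 q z := hq.contDiff.contDiffAt
  have ci : ContDiffAt ℂ 2 (fun y : ℂ => y⁻¹) z := contDiffAt_inv ℂ hz
  have a1 : ContDiffAt ℝ 2 (fun y : ℂ => Real.log ‖y‖) z :=
    (contDiffAt_id.norm ℝ hz).log (norm_ne_zero_iff.2 hz)
  have a2 : ContDiffAt ℝ 2 (fun y : ℂ => Real.log ‖q y‖) z :=
    ((cq.restrict_scalars ℝ).norm ℝ h).log (norm_ne_zero_iff.2 h)
  have a3 : ContDiffAt ℝ 2 (fun y : ℂ => ‖y⁻¹‖ ^ 2) z := (ci.restrict_scalars ℝ).norm_sq ℝ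
  have a4 : ContDiffAt ℝ 2 (fun y : ℂ => (N + 1 : ℝ) * Real.log ‖y‖) z := contDiffAt_const.mul a1
  refine ⟨(a4.sub a2).sub a3, ?_⟩
  have e1 : lev (fun y : ℂ => Real.log ‖y‖) z 1 = 0 :=
    lev_log_norm_holo (f := fun y : ℂ => y) contDiffAt_id hz
  have e3 : lev (fun y : ℂ => ‖y⁻¹‖ ^ 2) z 1 = ‖-(z ^ 2)⁻¹‖ ^ 2 := by
    rw [lev_comp_holo (φ := fun y : ℂ => ‖y‖ ^ 2) (contDiff_norm_sq ℝ).contDiffAt ci, lev_normSq]
    simp
  unfold bar
  rw [lev_sub (a4.sub a2) a3, lev_sub a4 a2, lev_const_mul _ a1, e1, lev_log_norm_holo cq h, e3]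
  have : 0 < ‖-(z ^ 2)⁻¹‖ := norm_pos_iff.2 (by simpa using hz)
  nlinarith

/-- one variable: a subharmonic function that is small against the barrier is largest at `0` -/
theorem liou_bar {q : ℂ → ℂ} (hq : Differentiable ℂ q) {C : ℝ} {N : ℕ}
    (hg : ∀ z, ‖q z‖ ≤ C * (1 + ‖z‖) ^ N) (h0 : q 0 ≠ 0) {f : ℂ → ℝ}
    (hs : ∀ z, q z ≠ 0 → ContDiffAt ℝ 2 f z) (hl : ∀ z, q z ≠ 0 → 0 ≤ lev f z 1)
    (hb : ∀ r > 0, ∀ ε > 0, ∃ B, ∀ z, r ≤ ‖z‖ → q z ≠ 0 → f z ≤ B + ε * bar q N z)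
    {z1 : ℂ} (h1 : q z1 ≠ 0) : f z1 ≤ f 0 := by
  by_contra hc
  rw [not_le] at hc
  have hz1 : z1 ≠ 0 := by
    rintro rfl
    exact lt_irrefl _ hc
  obtain ⟨η, hη, hη'⟩ : ∃ η > 0, f 0 < f z1 - η := ⟨(f z1 - f 0) / 2, by linarith, by linarith⟩
  have ev : ∀ᶠ z in 𝓝 (0 : ℂ), q z ≠ 0 ∧ f z < f z1 - η ∧ ‖z‖ < ‖z1‖ :=
    (hq.continuous.continuousAt.eventually_ne h0).and
      (((hs 0 h0).continuousAt.eventually (gt_mem_nhds hη')).and
        (continuous_norm.continuousAt.eventually (gt_mem_nhds (by simpa using hz1))))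
  obtain ⟨r, hr, hr'⟩ := nhds_basis_closedBall.eventually_iff.1 ev
  have hr1 : r < ‖z1‖ := by
    have := (hr' (x := (r : ℂ)) (by simp [abs_of_pos hr])).2.2
    simpa [abs_of_pos hr] using this
  have cb : ContinuousOn (bar q N) (sphere 0 r) := fun z hz =>
    (bar_sm hq N (by rintro rfl; simp [hr.ne] at hz)
      (hr' (sphere_subset_closedBall hz)).1).1.continuousAt.continuousWithinAt
  obtain ⟨M, hM⟩ := ((isCompact_sphere (0 : ℂ) r).image_of_continuousOn cb).isBounded.bddBelow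
  set ε : ℝ := η / (|bar q N z1 - M| + 1) with hε
  have ε0 : 0 < ε := by positivity
  have ε1 : ε * (bar q N z1 - M) < η := by
    rw [hε, div_mul_eq_mul_div, div_lt_iff₀ (by positivity)]
    nlinarith [le_abs_self (bar q N z1 - M)]
  obtain ⟨B, hB⟩ := hb r hr (ε / 2) (by positivity)
  set w : ℂ → ℝ := fun z => f z - ε * bar q N z with hw
  set L : ℝ := Real.exp (r⁻¹ ^ 2 + (B - w z1) / (ε / 2)) with hL
  have L0 : 0 < L := Real.exp_pos _
  set K : Set ℂ := {z | r ≤ ‖z‖ ∧ ‖z‖ ^ (N + 1) ≤ L * ‖q z‖} with hK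
  have out : ∀ z, r ≤ ‖z‖ → q z ≠ 0 → z ∉ K → w z < w z1 := fun z hz hq0 hn => by
    have z0 : 0 < ‖z‖ := hr.trans_le hz
    have q0 : 0 < ‖q z‖ := norm_pos_iff.2 hq0
    have a : L * ‖q z‖ < ‖z‖ ^ (N + 1) := not_le.1 fun h => hn ⟨hz, h⟩
    have b := Real.log_lt_log (by positivity) a
    rw [Real.log_mul L0.ne' q0.ne', Real.log_pow, hL, Real.log_exp] at b
    have c : ‖z⁻¹‖ ^ 2 ≤ r⁻¹ ^ 2 := by
      rw [norm_inv]
      gcongr
    have d : (B - w z1) / (ε / 2) < bar q N z := by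
      unfold bar
      push_cast at b
      linarith
    rw [div_lt_iff₀ (by positivity)] at d
    have e := hB z hz hq0
    change f z - ε * bar q N z < w z1
    linarith
  have inK : ∀ z ∈ K, z ≠ 0 ∧ q z ≠ 0 := fun z hz => by
    have z0 : 0 < ‖z‖ := hr.trans_le hz.1
    refine ⟨norm_pos_iff.1 z0, fun h => ?_⟩
    have := hz.2
    rw [h, norm_zero, mul_zero] at this
    exact absurd this (not_le.2 (by positivity))
  have cK : IsCompact K := by
    refine Metric.isCompact_of_isClosed_isBounded ?_ ?_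
    · exact (isClosed_le continuous_const continuous_norm).inter
        (isClosed_le (by fun_prop) (continuous_const.mul hq.continuous.norm))
    · refine (isBounded_closedBall (x := (0 : ℂ)) (r := L * (C * (r⁻¹ + 1) ^ N))).subset ?_
      intro z hz
      have z0 : 0 < ‖z‖ := hr.trans_le hz.1
      have C0 : 0 ≤ C := by
        have := (norm_nonneg _).trans (hg 0)
        simpa using this
      have a : 1 + ‖z‖ ≤ (r⁻¹ + 1) * ‖z‖ := by
        have : 1 ≤ r⁻¹ * ‖z‖ := by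
          rw [inv_mul_eq_div, le_div_iff₀ hr]
          simpa using hz.1
        linarith
      have b : ‖z‖ ^ N * ‖z‖ ≤ ‖z‖ ^ N * (L * (C * (r⁻¹ + 1) ^ N)) :=
        calc ‖z‖ ^ N * ‖z‖ = ‖z‖ ^ (N + 1) := by ring
          _ ≤ L * (C * (1 + ‖z‖) ^ N) := hz.2.trans (by gcongr; exact hg z)
          _ ≤ L * (C * ((r⁻¹ + 1) * ‖z‖) ^ N) := by gcongr
          _ = _ := by rw [mul_pow]; ring
      rw [mem_closedBall_zero_iff]
      exact le_of_mul_le_mul_left b (by positivity)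
  have sw : ∀ z, z ≠ 0 → q z ≠ 0 → ContDiffAt ℝ 2 w z := fun z a b =>
    (hs z b).sub (contDiffAt_const.mul (bar_sm hq N a b).1)
  have z1K : z1 ∈ K := by
    by_contra hn
    exact lt_irrefl _ (out z1 hr1.le h1 hn)
  obtain ⟨p, hp, hmax⟩ := cK.exists_isMaxOn ⟨z1, z1K⟩ fun z hz =>
    (sw z (inK z hz).1 (inK z hz).2).continuousAt.continuousWithinAt
  have p1 : w z1 ≤ w p := hmax z1K
  have pr : r < ‖p‖ := by
    refine lt_of_le_of_ne hp.1 fun h => ?_
    have s : p ∈ sphere (0 : ℂ) r := by simp [h]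
    have a := (hr' (sphere_subset_closedBall s)).2.1
    have b : M ≤ bar q N p := hM ⟨p, s, rfl⟩
    change f z1 - ε * bar q N z1 ≤ f p - ε * bar q N p at p1
    nlinarith
  have lm : IsLocalMax w p := by
    filter_upwards [hq.continuous.continuousAt.eventually_ne (inK p hp).2,
      continuous_norm.continuousAt.eventually (lt_mem_nhds pr)] with z a b
    by_cases hz : z ∈ K
    · exact hmax hz
    · exact (out z b.le a hz).le.trans p1
  have a := lev_nonpos_of_max (ξ := (1 : ℂ)) (sw p (inK p hp).1 (inK p hp).2) lm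
  obtain ⟨b1, b2⟩ := bar_sm hq N (inK p hp).1 (inK p hp).2
  rw [hw, lev_sub (hs p (inK p hp).2) (contDiffAt_const.mul b1), lev_const_mul _ b1] at a
  have := hl p (inK p hp).2
  nlinarith

/-- the barrier dominates `log (1 + |z|)` -/
theorem bar_ge {q : ℂ → ℂ} {C : ℝ} {N : ℕ} (hg : ∀ z, ‖q z‖ ≤ C * (1 + ‖z‖) ^ N) {r : ℝ}
    (hr : 0 < r) : ∃ M, ∀ z, r ≤ ‖z‖ → q z ≠ 0 → Real.log (1 + ‖z‖) - M ≤ bar q N z ∧
      -Real.log ‖q z‖ - M ≤ bar q N z := by
  refine ⟨|(N + 1 : ℝ) * Real.log (r⁻¹ + 1)| + |Real.log C| + r⁻¹ ^ 2 + |(N + 1 : ℝ) * Real.log r|,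
    fun z hz h0 => ?_⟩
  have z0 : 0 < ‖z‖ := hr.trans_le hz
  have q0 : 0 < ‖q z‖ := norm_pos_iff.2 h0
  have C0 : 0 < C := by
    by_contra h
    have := mul_nonpos_of_nonpos_of_nonneg (not_lt.1 h) (by positivity : 0 ≤ (1 + ‖z‖) ^ N)
    linarith [hg z]
  have a : 1 + ‖z‖ ≤ (r⁻¹ + 1) * ‖z‖ := by
    have : 1 ≤ r⁻¹ * ‖z‖ := by
      rw [inv_mul_eq_div, le_div_iff₀ hr]
      simpa using hz
    linarith
  have b := Real.log_le_log (by positivity) a
  rw [Real.log_mul (by positivity) z0.ne'] at b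
  have c := Real.log_le_log q0 (hg z)
  rw [Real.log_mul C0.ne' (by positivity), Real.log_pow] at c
  have d : ‖z⁻¹‖ ^ 2 ≤ r⁻¹ ^ 2 := by
    rw [norm_inv]
    gcongr
  have e := Real.log_le_log hr hz
  have n0 : (0 : ℝ) ≤ N + 1 := by positivity
  have b' := mul_le_mul_of_nonneg_left b n0
  have e' := mul_le_mul_of_nonneg_left e n0
  unfold bar
  constructor
  · nlinarith [le_abs_self ((N + 1 : ℝ) * Real.log (r⁻¹ + 1)), le_abs_self (Real.log C),
      abs_nonneg ((N + 1 : ℝ) * Real.log r)]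
  · nlinarith [abs_nonneg ((N + 1 : ℝ) * Real.log (r⁻¹ + 1)), abs_nonneg (Real.log C),
      neg_abs_le ((N + 1 : ℝ) * Real.log r)]

variable {E : Type*} [NormedAddCommGroup E] [NormedSpace ℂ E]

/-- an entire function of polynomial growth -/
structure PolyG (q : E → ℂ) : Prop where
  hol : Differentiable ℂ q
  grow : ∃ (C : ℝ) (N : ℕ), ∀ z, ‖q z‖ ≤ C * (1 + ‖z‖) ^ N

/-- growth smaller than every multiple of the logarithmic exhaustion -/
def SubLog (q : E → ℂ) (f : E → ℝ) : Prop :=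
  ∀ ε > 0, ∃ B, ∀ z, q z ≠ 0 → f z ≤ B + ε * (Real.log (1 + ‖z‖) + |Real.log ‖q z‖|)

omit [NormedSpace ℂ E] in
theorem SubLog.of_bdd {q : E → ℂ} {f : E → ℝ} {B : ℝ} (h : ∀ z, q z ≠ 0 → f z ≤ B) : SubLog q f :=
  fun ε hε => ⟨B, fun z hz => by
    have : 0 ≤ Real.log (1 + ‖z‖) := Real.log_nonneg (by linarith [norm_nonneg z])
    have := h z hz
    have : 0 ≤ ε * (Real.log (1 + ‖z‖) + |Real.log ‖q z‖|) := by positivity
    linarith⟩

/-- LIOUVILLE off a hypersurface -/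
theorem liou_space {q : E → ℂ} (hq : PolyG q) {f : E → ℝ}
    (hs : ∀ z, q z ≠ 0 → ContDiffAt ℝ 2 f z) (hl : ∀ z, q z ≠ 0 → ∀ ξ, 0 ≤ lev f z ξ)
    (hb : SubLog q f) {x y : E} (hx : q x ≠ 0) (hy : q y ≠ 0) : f x = f y := by
  have key : ∀ x y : E, q x ≠ 0 → q y ≠ 0 → f x ≤ f y := fun x y hx hy => by
    obtain ⟨C, N, hC⟩ := hq.grow
    set l : ℂ → E := fun t => y + t • (x - y) with hl'
    have dl : ContDiff ℂ 2 l := by fun_prop
    set A : ℝ := 1 + ‖y‖ + ‖x - y‖ with hA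
    have A1 : 1 ≤ A := by linarith [norm_nonneg y, norm_nonneg (x - y)]
    have nl : ∀ t, 1 + ‖l t‖ ≤ A * (1 + ‖t‖) := fun t => by
      have := norm_add_le y (t • (x - y))
      rw [norm_smul] at this
      nlinarith [norm_nonneg y, norm_nonneg (x - y), norm_nonneg t]
    have C0 : 0 ≤ C := by
      have := (norm_nonneg _).trans (hC 0)
      simpa using this
    have hg : ∀ t, ‖q (l t)‖ ≤ C * A ^ N * (1 + ‖t‖) ^ N := fun t =>
      (hC _).trans (by rw [mul_assoc, ← mul_pow]; gcongr; exact nl t)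
    have := liou_bar (q := fun t => q (l t)) (f := fun t => f (l t))
      (hq.hol.comp (dl.differentiable (by norm_num))) hg (by simpa [hl'] using hy)
      (fun t ht => (hs _ ht).comp t (dl.contDiffAt.restrict_scalars ℝ))
      (fun t ht => by rw [lev_comp_holo (hs _ ht) dl.contDiffAt]; exact hl _ ht _)
      (fun r hr ε hε => ?_) (z1 := 1) (by simpa [hl'] using hx)
    · simpa [hl'] using this
    obtain ⟨M, hM⟩ := bar_ge hg hr
    have n0 : (0 : ℝ) < N + 2 := by positivity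
    obtain ⟨B, hB⟩ := hb (ε / (N + 2)) (by positivity)
    refine ⟨B + ε / (N + 2) * (Real.log A + |Real.log (C * A ^ N)|) + ε * M, fun t ht h0 => ?_⟩
    obtain ⟨m1, m2⟩ := hM t ht h0
    have q0 : 0 < ‖q (l t)‖ := norm_pos_iff.2 h0
    have t0 : 0 ≤ Real.log (1 + ‖t‖) := Real.log_nonneg (by linarith [norm_nonneg t])
    have a := Real.log_le_log (by positivity) (nl t)
    rw [Real.log_mul (by positivity) (by positivity)] at a
    have C1 : C * A ^ N ≠ 0 := fun h => by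
      have := hg t
      rw [h, zero_mul] at this
      linarith
    have b := Real.log_le_log q0 (hg t)
    rw [Real.log_mul C1 (by positivity), Real.log_pow] at b
    have n1 : (0 : ℝ) ≤ N := by positivity
    have c : |Real.log ‖q (l t)‖| ≤
        |Real.log (C * A ^ N)| + (N + 1) * (M + bar (fun t => q (l t)) N t) := by
      have m3 := mul_le_mul_of_nonneg_left m1 n1
      rw [abs_le]
      constructor
      · nlinarith [abs_nonneg (Real.log (C * A ^ N))]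
      · nlinarith [le_abs_self (Real.log (C * A ^ N))]
    have d : Real.log (1 + ‖l t‖) + |Real.log ‖q (l t)‖| ≤ Real.log A + |Real.log (C * A ^ N)| +
        (N + 2) * (M + bar (fun t => q (l t)) N t) := by linarith
    have e := mul_le_mul_of_nonneg_left d (by positivity : 0 ≤ ε / (N + 2))
    have g : ε / (N + 2) * ((N + 2) * (M + bar (fun t => q (l t)) N t)) =
        ε * (M + bar (fun t => q (l t)) N t) := by field_simp
    have := hB _ h0
    linarith
  exact le_antisymm (key x y hx hy) (key y x hy hx)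

end

end Pool.Agent.Lib.MP_5c318e_ag.G
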