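import Pool.Agent.Lib.MP_5c318e_ag.G.Cv
import Pool.Agent.Lib.MP_5c318e_ag.RD.RInt
import Pool.Agent.Lib.MP_5c318e_ag.RD.RCalc

/-! Maps of Riemann domains over the same space; the cover of a germ transport as a Riemann
domain. -/

set_option autoImplicit false
set_option linter.unusedSectionVars false

namespace Pool.Agent.Lib.MP_5c318e_ag.G

open Filter Topology Set
open scoped ContDiff
open Pool.Agent.Lib.MP_9ff3e7_ag

noncomputable section

section cpt

variable {S Γ : Type} [TopologicalSpace S] [Group Γ] [T2Space S] {c : Coc S Γ}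

/-- a closed set over a compact set that meets finitely many sheets near each point is compact -/
theorem Cv.compact_of_fin {K : Set S} (hK : IsCompact K) {A : Set (Cv c)} (hA : IsClosed A)
    (hAK : ∀ x ∈ A, x.y ∈ K)
    (hf : ∀ a ∈ K, ∃ F : Set Γ, F.Finite ∧ ∀ᶠ y in 𝓝 a, ∀ g, (⟨a, g⟩ : Cv c).lift y ∈ A → g ∈ F) :
    IsCompact A := by
  choose! F hF hF' using hf
  let U : S → Set S := fun a =>
    interior {y | y ∈ c.bs a ∧ ∀ g, (⟨a, g⟩ : Cv c).lift y ∈ A → g ∈ F a}
  obtain ⟨t, ht, hc⟩ := hK.elim_nhds_subcover U fun a ha =>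
    interior_mem_nhds.2 (inter_mem (c.bs_nhds a) (hF' a ha))
  obtain ⟨W, h2, h3, h4⟩ := hK.finite_compact_cover t U (fun _ _ => isOpen_interior) hc
  refine (t.finite_toSet.isCompact_biUnion (f := fun a => ⋃ g ∈ F a, (⟨a, g⟩ : Cv c).lift '' W a)
    fun a ha => (hF a (ht a ha)).isCompact_biUnion fun g _ => (h2 a).image_of_continuousOn
      ((Cv.continuousOn_lift ⟨a, g⟩).mono fun y hy =>
        (interior_subset (h3 a hy)).1)).of_isClosed_subset hA fun x hx => ?_
  obtain ⟨a, ha, hxa⟩ := mem_iUnion₂.1 (h4.le (hAK x hx))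
  refine mem_biUnion ha (mem_biUnion ((interior_subset (h3 a hxa)).2 (Cv.co a x) ?_)
    ⟨x.y, hxa, Cv.lift_co a x⟩)
  rwa [Cv.lift_co]

instance Cv.sigmaCompact [SigmaCompactSpace S] [Countable Γ] : SigmaCompactSpace (Cv c) := by
  have : ∀ n : ℕ, ∃ (t : Finset S) (W : S → Set S), (∀ a, IsCompact (W a)) ∧ (∀ a, W a ⊆ c.bs a) ∧
      compactCovering S n = ⋃ a ∈ t, W a := fun n => by
    obtain ⟨t, -, hc⟩ := (isCompact_compactCovering S n).elim_nhds_subcover c.bs
      fun a _ => c.bs_nhds a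
    exact ⟨t, (isCompact_compactCovering S n).finite_compact_cover t c.bs
      (fun a _ => c.isOpen_bs a) hc⟩
  choose t W h2 h3 h4 using this
  refine SigmaCompactSpace.of_countable
    (range fun p : (Σ n, t n) × Γ => (⟨p.1.2.1, p.2⟩ : Cv c).lift '' W p.1.1 p.1.2.1)
    (countable_range _) ?_ ?_
  · rintro _ ⟨p, rfl⟩
    exact (h2 _ _).image_of_continuousOn ((Cv.continuousOn_lift ⟨p.1.2.1, p.2⟩).mono (h3 _ _))
  · refine eq_univ_of_forall fun x => ?_
    obtain ⟨n, hn⟩ := exists_mem_compactCovering x.y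
    obtain ⟨a, ha, hxa⟩ := mem_iUnion₂.1 ((h4 n).le hn)
    exact ⟨_, ⟨(⟨n, a, ha⟩, Cv.co a x), rfl⟩, x.y, hxa, Cv.lift_co a x⟩

end cpt

variable {ι : Type} [Fintype ι] {S S1 : Type} [TopologicalSpace S] [MeasurableSpace S]
  [TopologicalSpace S1] [MeasurableSpace S1]

/-- a continuous map of Riemann domains over the same space -/
structure RMap (D1 : RD ι S1) (D : RD ι S) (p : S1 → S) : Prop where
  cont : Continuous p
  eq : ∀ x, D1.π x = D.π (p x)

namespace RMap

variable {D1 : RD ι S1} {D : RD ι S} {p : S1 → S}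

theorem loc (R : RMap D1 D p) : IsLocalHomeomorph p :=
  IsLocalHomeomorph.of_comp (g := D.π) (by
    have : D.π ∘ p = D1.π := funext fun x => (R.eq x).symm
    rw [this]
    exact D1.loc) D.loc R.cont

theorem sec (R : RMap D1 D p) (x : S1) :
    (fun z => p (D1.sec x z)) =ᶠ[𝓝 (D1.π x)] D.sec (p x) := by
  rw [R.eq]
  refine D.sec_unique ?_ ?_ ?_
  · rw [← R.eq, D1.sec_self]
  · rw [← R.eq]
    exact R.cont.continuousAt.comp (RD.sec_contAt (D1.mem_tgt x))
  · rw [← R.eq]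
    exact (D1.π_sec_ev x).mono fun z h => by rw [← R.eq, h]

theorem germ (R : RMap D1 D p) {α : Type*} (f : S → α) (x : S1) :
    (fun z => f (p (D1.sec x z))) =ᶠ[𝓝 (D1.π x)] fun z => f (D.sec (p x) z) :=
  (R.sec x).mono fun _ h => congrArg f h

theorem contDiffAt_iff (R : RMap D1 D p) {𝕜 : Type} [NontriviallyNormedField 𝕜]
    [NormedSpace 𝕜 (ι → ℂ)] {E : Type} [NormedAddCommGroup E] [NormedSpace 𝕜 E] {k : WithTop ℕ∞}
    (f : S → E) (x : S1) : ContDiffAt 𝕜 k (fun z => f (p (D1.sec x z))) (D1.π x) ↔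
      ContDiffAt 𝕜 k (fun z => f (D.sec (p x) z)) (D.π (p x)) := by
  rw [← R.eq]
  exact ⟨fun h => h.congr_of_eventuallyEq (R.germ f x).symm,
    fun h => h.congr_of_eventuallyEq (R.germ f x)⟩

theorem diffAt_iff (R : RMap D1 D p) {E : Type} [NormedAddCommGroup E] [NormedSpace ℂ E]
    (f : S → E) (x : S1) : DifferentiableAt ℂ (fun z => f (p (D1.sec x z))) (D1.π x) ↔
      DifferentiableAt ℂ (fun z => f (D.sec (p x) z)) (D.π (p x)) := by
  rw [← R.eq]
  exact (R.germ f x).differentiableAt_iff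

theorem fderiv_eq (R : RMap D1 D p) {𝕜 : Type} [NontriviallyNormedField 𝕜]
    [NormedSpace 𝕜 (ι → ℂ)] {E : Type} [NormedAddCommGroup E] [NormedSpace 𝕜 E]
    (f : S → E) (x : S1) : fderiv 𝕜 (fun z => f (p (D1.sec x z))) (D1.π x) =
      fderiv 𝕜 (fun z => f (D.sec (p x) z)) (D.π (p x)) := by
  rw [← R.eq]
  exact (R.germ f x).fderiv_eq

theorem sm (R : RMap D1 D p) {E : Type} [NormedAddCommGroup E] [NormedSpace ℝ E] {f : S → E}
    (hf : D.Sm f) : D1.Sm fun x => f (p x) := fun x => (R.contDiffAt_iff f x).2 (hf _)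

theorem sm_of (R : RMap D1 D p) (hp : Function.Surjective p) {E : Type} [NormedAddCommGroup E]
    [NormedSpace ℝ E] {f : S → E} (hf : D1.Sm fun x => f (p x)) : D.Sm f := fun y => by
  obtain ⟨x, rfl⟩ := hp y
  exact (R.contDiffAt_iff f x).1 (hf x)

theorem hol (R : RMap D1 D p) {E : Type} [NormedAddCommGroup E] [NormedSpace ℂ E] {f : S → E}
    (hf : D.Hol f) : D1.Hol fun x => f (p x) := fun x => (R.diffAt_iff f x).2 (hf _)

theorem hol_of (R : RMap D1 D p) (hp : Function.Surjective p) {E : Type} [NormedAddCommGroup E]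
    [NormedSpace ℂ E] {f : S → E} (hf : D1.Hol fun x => f (p x)) : D.Hol f := fun y => by
  obtain ⟨x, rfl⟩ := hp y
  exact (R.diffAt_iff f x).1 (hf x)

theorem levi (R : RMap D1 D p) (f : S → ℝ) (x : S1) (ξ : ι → ℂ) :
    D1.levi (fun x => f (p x)) x ξ = D.levi f (p x) ξ := by
  rw [RD.levi, RD.levi, ← R.eq]
  exact F.levi_congr (R.germ f x) ξ

theorem dbar (R : RMap D1 D p) (f : S → ℂ) (x : S1) (ξ : ι → ℂ) :
    D1.dbar (fun x => f (p x)) x ξ = D.dbar f (p x) ξ := by
  rw [RD.dbar, RD.dbar, ← R.eq]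
  exact F.dbar_congr (R.germ f x) ξ

theorem psh (R : RMap D1 D p) {f : S → ℝ} (hf : D.Psh f) : D1.Psh fun x => f (p x) :=
  ⟨R.sm hf.1, fun x ξ => by rw [R.levi]; exact hf.2 _ _⟩

theorem psh_of (R : RMap D1 D p) (hp : Function.Surjective p) {f : S → ℝ}
    (hf : D1.Psh fun x => f (p x)) : D.Psh f :=
  ⟨R.sm_of hp hf.1, fun y ξ => by
    obtain ⟨x, rfl⟩ := hp y
    rw [← R.levi]
    exact hf.2 _ _⟩

end RMap

/-- a space spread over a Riemann domain is a Riemann domain -/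
def pull [BorelSpace S1] [SigmaCompactSpace S1] (D : RD ι S) (p : S1 → S)
    (hp : IsLocalHomeomorph p) : RD ι S1 where
  π := fun x => D.π (p x)
  loc := D.loc.comp hp
  μ := (RD.exists_of (fun x => D.π (p x)) (D.loc.comp hp)).choose.μ
  vol := by
    have h := (RD.exists_of (fun x => D.π (p x)) (D.loc.comp hp)).choose.vol
    rw [(RD.exists_of (fun x => D.π (p x)) (D.loc.comp hp)).choose_spec] at h
    exact h

theorem pull_rmap [BorelSpace S1] [SigmaCompactSpace S1] (D : RD ι S) (p : S1 → S)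
    (hp : IsLocalHomeomorph p) : RMap (pull D p hp) D p := ⟨hp.continuous, fun _ => rfl⟩

namespace Cv

variable {Γ Γ' : Type} [Group Γ] [Group Γ'] [Countable Γ] [Countable Γ'] [T2Space S]
  [SigmaCompactSpace S]

/-- the cover as a Riemann domain -/
def rd (D : RD ι S) (c : Coc S Γ) : RD ι (Cv c) := pull D Cv.y isLocalHomeomorph

variable (D : RD ι S) {c : Coc S Γ}

@[simp] theorem rd_π (x : Cv c) : (rd D c).π x = D.π x.y := rfl

theorem rmap_y : RMap (rd D c) D Cv.y := pull_rmap _ _ _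

theorem rmap_smul (γ : Γ) : RMap (rd D c) (rd D c) fun x => γ • x :=
  ⟨continuous_const_smul γ, fun _ => rfl⟩

theorem rmap_map (f : Γ →* Γ') : RMap (rd D c) (rd D (c.map f)) (map f) :=
  ⟨continuous_map f, fun _ => rfl⟩

theorem y_surjective : Function.Surjective (Cv.y : Cv c → S) := fun y => ⟨⟨y, 1⟩, rfl⟩

/-- the local section of the cover -/
theorem rd_sec (x : Cv c) : (rd D c).sec x =ᶠ[𝓝 (D.π x.y)] fun z => x.lift (D.sec x.y z) := by
  filter_upwards [((rd D c).tendsto_sec x).eventually (ev_lift x), (rmap_y D).sec x] with z a b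
  rw [← a, b]

theorem rd_germ {α : Type*} (f : Cv c → α) (x : Cv c) :
    (fun z => f ((rd D c).sec x z)) =ᶠ[𝓝 (D.π x.y)] fun z => f (x.lift (D.sec x.y z)) :=
  (rd_sec D x).mono fun _ h => congrArg f h

/-- an invariant function comes from the base -/
theorem inv_eq {α : Type*} {f : Cv c → α} (hf : ∀ (γ : Γ) x, f (γ • x) = f x) (x : Cv c) :
    f ⟨x.y, 1⟩ = f x := by
  rw [← hf x.g, smul_one']

end Cv

end

end Pool.Agent.Lib.MP_5c318e_ag.G
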