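import Pool.Agent.Lib.MP_5c318e_ag.G.CvRD
import Pool.Agent.Lib.MP_5c318e_ag.G.Sheet
import Pool.Agent.Lib.MP_5c318e_ag.V.Alg
import Pool.Agent.Lib.MP_5c318e_ag.V.Fun

/-! Variations of Hodge structure on a Riemann domain, read on the connected monodromy cover. -/

set_option autoImplicit false
set_option linter.unusedSectionVars false

namespace Pool.Agent.Lib.MP_5c318e_ag.G

open Filter Topology Set Matrix Complex
open scoped ContDiff ComplexOrder
open Pool.Agent.Lib.MP_5c318e_ag.V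

noncomputable section

variable {ι : Type} [Fintype ι] {n : Type} [Fintype n] [DecidableEq n] {w : ℕ}

instance : Countable (GL n ℤ) :=
  haveI : Countable (Matrix n n ℤ) := inferInstanceAs (Countable (n → n → ℤ))
  Units.val_injective.countable

section ax

variable {E : Type} [NormedAddCommGroup E] [NormedSpace ℂ E] {π π' : ℤ → E → Matrix n n ℂ} {a : E}

theorem ax_congr (h : Ax w π a) (e : ∀ p, π' p =ᶠ[𝓝 a] π p) : Ax w π' a := by
  have e1 : gr (wt w) π' =ᶠ[𝓝 a] gr (wt w) π := by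
    filter_upwards [(eventually_all_finset (wt w)).2 fun p _ => e p] with z hz
    exact Finset.sum_congr rfl fun p hp => by rw [hz p hp]
  refine ⟨fun p => (h.1 p).congr (e p), fun ξ => ?_⟩
  rw [derM_congr e1, e1.self_of_nhds]
  exact h.2 ξ

/-- multiplication by constant matrices with `B * L` the identity on the relevant space -/
theorem ax_conj {m : Type} [Fintype m] [DecidableEq m] (h : Ax w π a) {L : Matrix m n ℂ}
    {B : Matrix n m ℂ} (e : ∀ p, ∀ᶠ z in 𝓝 a, B * (L * π p z * B) = π p z * B) :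
    Ax w (fun p z => L * π p z * B) a := by
  have sg : SmM (gr (wt w) π) a := SmM.sum _ fun p _ => (h.1 p).csmul _
  have e1 : gr (wt w) (fun p z => L * π p z * B) = fun z => L * gr (wt w) π z * B := by
    funext z
    simp only [gr, Matrix.mul_sum, Matrix.sum_mul, Matrix.mul_smul, Matrix.smul_mul]
  have e2 : (fun z => B * (L * gr (wt w) π z * B)) =ᶠ[𝓝 a] fun z => gr (wt w) π z * B := by
    filter_upwards [(eventually_all_finset (wt w)).2 fun p _ => e p] with z hz
    simp only [gr, Matrix.mul_sum, Matrix.sum_mul, Matrix.mul_smul, Matrix.smul_mul]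
    exact Finset.sum_congr rfl fun p hp => by rw [hz p hp]
  refine ⟨fun p => ((smM_const L).mul (h.1 p)).mul (smM_const B), fun ξ => ?_⟩
  have e3 := derM_congr (c := -I) (ξ := ξ) e2
  have s1 := (smM_const L).mul sg
  rw [derM_const_mul _ (s1.mul (smM_const B)), derM_mul_const s1, derM_const_mul _ sg,
    derM_mul_const sg] at e3
  have e4 : B * (L * gr (wt w) π a * B) = gr (wt w) π a * B := e2.self_of_nhds
  rw [e1, derM_mul_const s1, derM_const_mul _ sg]
  conv_rhs => rw [← h.2 ξ]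
  rw [Matrix.mul_assoc _ B, e4, Matrix.mul_assoc _ B, e3]
  simp only [Matrix.mul_sub, Matrix.sub_mul, Matrix.mul_assoc]

end ax

section glv

variable {S : Type} [TopologicalSpace S] [MeasurableSpace S]

/-- the Hodge metric -/
def hh {X : Type} (w : ℕ) (Q : Matrix n n ℂ) (P : ℤ → X → Matrix n n ℂ) (x : X) : Matrix n n ℂ :=
  Q * wey (wt w) P x

/-- the bound for the grading element -/
def KK (w : ℕ) (n : Type) [Fintype n] : ℝ := (∑ p ∈ wt w, (p : ℝ) ^ 2) * Fintype.card n

theorem KK_nonneg : 0 ≤ KK w n := by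
  unfold KK
  positivity

/-- a variation of Hodge structure in a global flat frame on a Riemann domain -/
structure GLV (D : RD ι S) (w : ℕ) (Q : Matrix n n ℂ) (P : ℤ → S → Matrix n n ℂ) : Prop where
  phs : ∀ x, PHS w Q fun p => P p x
  ax : ∀ x, Ax w (fun p z => P p (D.sec x z)) (D.π x)

namespace GLV

variable {D : RD ι S} {Q : Matrix n n ℂ} {P : ℤ → S → Matrix n n ℂ}

theorem ax_at (G : GLV D w Q P) (x : S) {z : ι → ℂ} (hz : z ∈ (D.ch x).target) :
    Ax w (fun p z => P p (D.sec x z)) z := by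
  have := G.ax (D.sec x z)
  rw [RD.π_sec hz] at this
  exact ax_congr this fun p => RD.germ_f (P p) hz

theorem lv (G : GLV D w Q P) (x : S) :
    LV (D.ch x).target Q (wt w) fun p z => P p (D.sec x z) where
  op := (D.ch x).open_target
  sm := fun p _ hz => (G.ax_at x hz).1 p
  prj := fun _ _ => (G.phs _).prj
  adj := fun _ _ => (G.phs _).adj
  pos := fun _ _ => (G.phs _).pos
  ax := fun _ hz => (G.ax_at x hz).2

theorem gm (G : GLV D w Q P) (x : S) : GM (D.ch x).target (fun z => hh w Q P (D.sec x z))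
    (fun z => gr (wt w) P (D.sec x z)) (KK w n) := (G.lv x).gm

theorem pos (G : GLV D w Q P) (x : S) : (hh w Q P x).PosDef := (G.phs x).pos

theorem cont_P (G : GLV D w Q P) (p : ℤ) : Continuous (P p) :=
  continuous_matrix fun i j => RD.cont_of_sec (D := D) fun x => ((G.ax x).1 p i j).continuousAt

theorem cont_h (G : GLV D w Q P) : Continuous (hh w Q P) :=
  continuous_matrix fun i j => RD.cont_of_sec (D := D) fun x =>
    ((G.gm x).sm _ (D.mem_tgt x) i j).continuousAt

theorem pull (G : GLV D w Q P) {S1 : Type} [TopologicalSpace S1] [MeasurableSpace S1]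
    {D1 : RD ι S1} {f : S1 → S} (R : RMap D1 D f) : GLV D1 w Q fun p x => P p (f x) :=
  ⟨fun _ => G.phs _, fun x => ax_congr (R.eq x ▸ G.ax (f x)) fun p => R.germ (P p) x⟩

theorem push {S1 : Type} [TopologicalSpace S1] [MeasurableSpace S1] {D1 : RD ι S1} {f : S1 → S}
    (R : RMap D1 D f) (hf : Function.Surjective f) (G : GLV D1 w Q fun p x => P p (f x)) :
    GLV D w Q P :=
  ⟨fun y => by
    obtain ⟨x, rfl⟩ := hf y
    exact G.phs x, fun y => by
    obtain ⟨x, rfl⟩ := hf y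
    exact R.eq x ▸ ax_congr (G.ax x) fun p => (R.germ (P p) x).symm⟩

end GLV

end glv

variable {S : Type} [TopologicalSpace S] [MeasurableSpace S] [T2Space S] [SigmaCompactSpace S]

/-- a polarised variation of Hodge structure with a lattice on `D`: monodromy group `Γ`, connected
cover `Cv c`, constant form `Q`, equivariant Hodge projectors `P` -/
structure Pk (D : RD ι S) (n : Type) [Fintype n] [DecidableEq n] (w : ℕ) where
  Γ : Subgroup (GL n ℤ)
  c : Coc S Γ
  Q : Matrix n n ℂ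
  P : ℤ → Cv c → Matrix n n ℂ
  inv : ∀ γ : Γ, (cx γ)ᴴ * Q * cx γ = Q
  glv : GLV (Cv.rd D c) w Q P
  eqv : ∀ (γ : Γ) p x, P p (γ • x) * cx γ = cx γ * P p x
  conn : PreconnectedSpace (Cv c)

namespace Pk

variable {D : RD ι S} (V : Pk D n w)

/-- the cover -/
abbrev Bt : Type := Cv V.c

/-- the cover as a Riemann domain -/
abbrev rd : RD ι V.Bt := Cv.rd D V.c

instance : PreconnectedSpace V.Bt := V.conn

/-- the Hodge metric -/
abbrev h : V.Bt → Matrix n n ℂ := hh w V.Q V.P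

/-- the grading element -/
abbrev Y : V.Bt → Matrix n n ℂ := gr (wt w) V.P

/-- flat endomorphisms -/
def Alg (e : Matrix n n ℂ) : Prop := ∀ γ : V.Γ, e * cx γ = cx γ * e

/-- flat self adjoint endomorphisms of degree zero -/
structure Ed (e : Matrix n n ℂ) : Prop where
  alg : V.Alg e
  comm : ∀ p x, e * V.P p x = V.P p x * e
  adj : eᴴ * V.Q = V.Q * e

/-- holomorphic sections of the top piece -/
structure Top (om : V.Bt → n → ℂ) : Prop where
  hol : V.rd.Hol om
  eqv : ∀ (γ : V.Γ) x, om (γ • x) = cx γ *ᵥ om x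
  top : ∀ x, V.P w x *ᵥ om x = om x

/-- the squared Hodge norm of a section, on the base -/
def N (om : V.Bt → n → ℂ) (y : S) : ℝ := (qf (V.h ⟨y, 1⟩) (om ⟨y, 1⟩) (om ⟨y, 1⟩)).re

/-- `γ` is a scalar on all the vectors `om x` -/
def Sc (om : V.Bt → n → ℂ) (γ : V.Γ) : Prop := ∃ l : ℂ, ∀ x, cx γ *ᵥ om x = l • om x

/-- the hull property -/
def Hull (om : V.Bt → n → ℂ) : Prop :=
  ∀ γ : V.Γ, V.Sc om γ → V.Alg (cx γ) ∧ ∀ p x, cx γ * V.P p x = V.P p x * cx γ

theorem cx_coe_mul (γ δ : V.Γ) : cx ((γ * δ : V.Γ) : GL n ℤ) = cx γ * cx δ := cx_mul _ _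

theorem cx_coe_inv_mul (γ : V.Γ) : cx ((γ⁻¹ : V.Γ) : GL n ℤ) * cx γ = 1 := cx_inv_mul _

theorem cx_coe_mul_inv (γ : V.Γ) : cx γ * cx ((γ⁻¹ : V.Γ) : GL n ℤ) = 1 := cx_mul_inv _

theorem wey_eqv (γ : V.Γ) (x : V.Bt) :
    wey (wt w) V.P (γ • x) * cx γ = cx γ * wey (wt w) V.P x := by
  simp only [wey, Matrix.mul_sum, Matrix.sum_mul, Matrix.mul_smul, Matrix.smul_mul, V.eqv]

theorem Y_eqv (γ : V.Γ) (x : V.Bt) : V.Y (γ • x) * cx γ = cx γ * V.Y x := by
  simp only [gr, Matrix.mul_sum, Matrix.sum_mul, Matrix.mul_smul, Matrix.smul_mul, V.eqv]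

theorem h_eqv (γ : V.Γ) (x : V.Bt) : (cx γ)ᴴ * V.h (γ • x) * cx γ = V.h x := by
  rw [Pk.h, hh, hh, Matrix.mul_assoc, Matrix.mul_assoc, V.wey_eqv, ← Matrix.mul_assoc,
    ← Matrix.mul_assoc, V.inv]

theorem gm (x : V.Bt) : GM (V.rd.ch x).target (fun z => V.h (V.rd.sec x z))
    (fun z => V.Y (V.rd.sec x z)) (KK w n) := V.glv.gm x

theorem pos (x : V.Bt) : (V.h x).PosDef := V.glv.pos x

variable {V}

theorem Top.N_eq {om : V.Bt → n → ℂ} (T : V.Top om) (x : V.Bt) :
    V.N om x.y = (qf (V.h x) (om x) (om x)).re :=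
  Cv.inv_eq (f := fun x => (qf (V.h x) (om x) (om x)).re) (fun γ x => by
    rw [T.eqv, qf_mulVec_left, qf_mulVec_right, V.h_eqv]) x

theorem Top.h_mul {om : V.Bt → n → ℂ} (T : V.Top om) (x : V.Bt) :
    V.h x *ᵥ om x = (-1 : ℂ) ^ w • V.Q *ᵥ om x := by
  have := (V.glv.phs x).wey_mul w
  conv_lhs => rw [← T.top x, Pk.h, hh, mulVec_mulVec, Matrix.mul_assoc]
  change (V.Q * (weyP w (fun p => V.P p x) * V.P w x)) *ᵥ _ = _
  rw [this, Matrix.mul_smul, smul_mulVec, ← mulVec_mulVec, T.top, zpow_natCast]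

theorem Top.Y_mul {om : V.Bt → n → ℂ} (T : V.Top om) (x : V.Bt) :
    V.Y x *ᵥ om x = (w : ℂ) • om x := by
  have := (V.glv.phs x).prj.sum_mul (fun p => (p : ℂ)) w
  conv_lhs => rw [← T.top x, mulVec_mulVec]
  change ((∑ q ∈ wt w, (q : ℂ) • V.P q x) * V.P w x) *ᵥ _ = _
  rw [this, smul_mulVec, T.top, Int.cast_natCast]

end Pk

end

end Pool.Agent.Lib.MP_5c318e_ag.G
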