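import Pool.Agent.Lib.MP_5c318e_ag.G.Fix
import Pool.Agent.Lib.MP_5c318e_ag.M.Cent

/-! The hull of a section of the top piece. -/

set_option autoImplicit false
set_option linter.unusedSectionVars false

namespace Pool.Agent.Lib.MP_5c318e_ag.G

open Filter Topology Set Matrix Complex
open scoped ContDiff ComplexOrder
open Pool.Agent.Lib.MP_5c318e_ag.V

noncomputable section

/-- functions that are invariant under the kernel descend -/
theorem Cv.descend {S Γ Γ' : Type} [TopologicalSpace S] [Group Γ] [Group Γ'] {c : Coc S Γ}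
    {f : Γ →* Γ'} (hf : Function.Surjective f) {α : Type*} {F : Cv c → α}
    (h : ∀ γ x, f γ = 1 → F (γ • x) = F x) : ∃ F' : Cv (c.map f) → α, ∀ x, F' (x.map f) = F x := by
  choose s hs using Cv.map_surjective (c := c) hf
  refine ⟨fun x => F (s x), fun x => ?_⟩
  have a : (s (x.map f)).y = x.y := congrArg (fun t : Cv (c.map f) => t.y) (hs (x.map f))
  have b : f (s (x.map f)).g = f x.g := congrArg (fun t : Cv (c.map f) => t.g) (hs (x.map f))
  rw [← h ((s (x.map f)).g * x.g⁻¹) x (by rw [map_mul, map_inv, b, mul_inv_cancel])]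
  exact congrArg F (Cv.ext a (by simp))

variable {ι : Type} [Fintype ι] {n k : Type} [Fintype n] [DecidableEq n] [Fintype k]
  [DecidableEq k] {w : ℕ}

theorem oprj_eqv {g H : Matrix n n ℂ} {B : Matrix n k ℂ} {r : Matrix k k ℂ} (a : g * B = B * r)
    (u : IsUnit r.det) : g * oprj (gᴴ * H * g) B = oprj H B * g := by
  have u' : IsUnit rᴴ.det := by
    rw [det_conjTranspose]
    exact u.star
  have a' : Bᴴ * gᴴ = rᴴ * Bᴴ := by rw [← conjTranspose_mul, a, conjTranspose_mul]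
  have e : Bᴴ * (gᴴ * H * g) * B = rᴴ * (Bᴴ * H * B) * r := by
    simp only [Matrix.mul_assoc]
    rw [← a, ← Matrix.mul_assoc rᴴ, ← a', Matrix.mul_assoc]
  rw [oprj, oprj, e, Matrix.mul_inv_rev, Matrix.mul_inv_rev, ← Matrix.mul_assoc g, a]
  simp only [Matrix.mul_assoc]
  rw [← Matrix.mul_assoc r, Matrix.mul_nonsing_inv _ u, Matrix.one_mul, ← Matrix.mul_assoc Bᴴ gᴴ,
    a', Matrix.mul_assoc rᴴ, ← Matrix.mul_assoc _ rᴴ, Matrix.nonsing_inv_mul _ u', Matrix.one_mul]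

variable {S : Type} [TopologicalSpace S] [MeasurableSpace S] [T2Space S] [SigmaCompactSpace S]
  {D : RD ι S} {q : (ι → ℂ) → ℂ}

namespace Pk

theorem alg_iff {V : Pk D n w} {e : Matrix n n ℂ} : V.Alg e ↔ e ∈ M.Alg V.Γ :=
  ⟨fun h => M.mem_Alg.2 fun g hg => (h ⟨g, hg⟩).symm, fun h γ => (M.mem_Alg.1 h γ γ.2).symm⟩

theorem fixP (V : Pk D n w) (P : Prp D q) (x : V.Bt) : M.FixP V.Γ (V.h x) (V.Y x) :=
  ⟨V.pos x, fun _ he => alg_iff.1 (Alg.comm_Y P (alg_iff.2 he) x),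
    fun _ he => alg_iff.1 (Alg.adj P (alg_iff.2 he) x)⟩

/-- the package `W` is the part of `V` spanned by the columns of `B` -/
structure Sub (V : Pk D n w) (W : Pk D k w) (B : Matrix n k ℂ) (f : V.Bt → W.Bt) : Prop where
  inj : Function.Injective B.mulVec
  surj : Function.Surjective f
  cont : Continuous f
  y : ∀ x, (f x).y = x.y
  Q : W.Q = Bᴴ * V.Q * B
  P : ∀ p x, V.P p x * B = B * W.P p (f x)
  h : ∀ x, W.h (f x) = Bᴴ * V.h x * B
  ed : ∀ e, V.Ed e → ∃ e1, W.Ed e1 ∧ e * B = B * e1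

theorem Sub.rmap {V : Pk D n w} {W : Pk D k w} {B : Matrix n k ℂ} {f : V.Bt → W.Bt}
    (R : Sub V W B f) : RMap V.rd W.rd f := ⟨R.cont, fun x => by rw [Cv.rd_π, Cv.rd_π, R.y]⟩

theorem hull' (V : Pk D n w) (P : Prp D q) {om : V.Bt → n → ℂ} (T : V.Top om) :
    ∃ (k : ℕ) (W : Pk D (Fin k) w) (om1 : W.Bt → Fin k → ℂ) (B : Matrix n (Fin k) ℂ)
      (f : V.Bt → W.Bt), Sub V W B f ∧ W.Top om1 ∧ W.Hull om1 ∧ (∀ x, om x = B *ᵥ om1 (f x)) ∧
      ∀ y, W.N om1 y = V.N om y := by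
  set V₁ : Submodule ℂ (n → ℂ) := Submodule.span ℂ (range om) with hV₁
  have hV : ∀ g ∈ V.Γ, M.Stab V₁ (cx g) := fun g hg => M.stab_span (by
    rintro _ ⟨x, rfl⟩
    exact Submodule.subset_span ⟨_, T.eqv ⟨g, hg⟩ x⟩)
  obtain ⟨k, B, C, L⟩ := M.exists_lat (M.sat V.Γ V₁)
  replace L : M.Lat (M.HT V.Γ V₁) B C := L
  have hT : ∀ γ : V.Γ, M.Stab (M.HT V.Γ V₁) (cx (γ : GL n ℤ)) := fun γ => M.HT_stab hV γ.2
  obtain ⟨ρ, hρ⟩ := L.exists_hom V.Γ fun g hg => hT ⟨g, hg⟩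
  have hB : ∀ γ : V.Γ, cx (γ : GL n ℤ) * B = B * cx (ρ γ) := fun γ => by
    rw [hρ, L.mul_res (hT γ)]
  have SS : ∀ x, oprj (V.h x) B ∈ M.Alg V.Γ := fun x => alg_iff.1 fun γ => by
    conv_rhs => rw [← V.h_eqv γ x, oprj_eqv (hB γ) (cx_unit _)]
    rw [V.oprj_eq P L.inj (fun γ => ⟨_, hB γ, M.norm_det_cx _⟩) x (γ • x)]
  have hp := fun x => M.hull_point hV L (V.glv.phs x) (V.fixP P x) (SS x)
  have hom : ∀ x, B *ᵥ (C *ᵥ om x) = om x := fun x =>
    (L.mem _).1 (M.le_HT (Submodule.subset_span ⟨x, rfl⟩))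
  have sρ := ρ.rangeRestrict_surjective
  have eP : ∀ (γ : V.Γ) p x, res B (V.P p (γ • x)) * cx (ρ γ) = cx (ρ γ) * res B (V.P p x) :=
    fun γ p x => by
    rw [hρ, ← L.res_mul ((hp _).1 p) (hT γ), V.eqv, L.res_mul (hT γ) ((hp _).1 p)]
  have eo : ∀ (γ : V.Γ) x, C *ᵥ om (γ • x) = cx (ρ γ) *ᵥ (C *ᵥ om x) := fun γ x => L.inj (by
    rw [hom, mulVec_mulVec _ B, ← hB, ← mulVec_mulVec, hom, T.eqv])
  have k1 : ∀ γ : V.Γ, ρ.rangeRestrict γ = 1 → cx (ρ γ) = 1 := fun γ h => by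
    rw [show ρ γ = 1 from congrArg Subtype.val h, cx_one]
  obtain ⟨P1, hP1⟩ := Cv.descend (c := V.c) sρ (F := fun x p => res B (V.P p x)) fun γ x h => by
    funext p
    simpa only [k1 γ h, Matrix.mul_one, Matrix.one_mul] using eP γ p x
  obtain ⟨om1, ho1⟩ := Cv.descend (c := V.c) sρ (F := fun x => C *ᵥ om x) fun γ x h => by
    simpa only [k1 γ h, one_mulVec] using eo γ x
  have sf := Cv.map_surjective (c := V.c) sρ
  have glv : GLV (Cv.rd D (V.c.map ρ.rangeRestrict)) w (Bᴴ * V.Q * B) fun p x => P1 x p := by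
    refine GLV.push (Cv.rmap_map D ρ.rangeRestrict) sf ?_
    simp only [hP1]
    refine ⟨fun x => (hp x).2.1, fun x => ?_⟩
    simp only [fun p z => L.res_eq' ((hp z).1 p)]
    exact ax_conj (V.glv.ax x) fun p => Eventually.of_forall fun z => (L.mul_eq ((hp _).1 p)).symm
  let W : Pk D (Fin k) w :=
    { Γ := ρ.range
      c := V.c.map ρ.rangeRestrict
      Q := Bᴴ * V.Q * B
      P := fun p x => P1 x p
      inv := fun γ => by
        obtain ⟨γ, rfl⟩ := sρ γ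
        rw [MonoidHom.coe_rangeRestrict, hρ]
        exact L.res_unitary (hT γ) (V.inv γ)
      glv := glv
      eqv := fun γ p x => by
        obtain ⟨γ, rfl⟩ := sρ γ
        obtain ⟨x, rfl⟩ := sf x
        rw [← Cv.map_smul, hP1, hP1]
        exact eP γ p x
      conn := Cv.preconnected_map sρ }
  have hh' : ∀ x, W.h (Cv.map ρ.rangeRestrict x) = Bᴴ * V.h x * B := fun x => by
    have := L.metric (w := w) (Q := V.Q) (hp x).1
    rw [← hP1] at this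
    exact this
  refine ⟨k, W, om1, B, Cv.map ρ.rangeRestrict, ⟨L.inj, sf, Cv.continuous_map _, fun _ => rfl, rfl,
    fun p x => ?_, hh', fun e he => ?_⟩, ⟨?_, fun γ x => ?_, fun x => ?_⟩, fun γ hγ => ?_,
    fun x => by rw [ho1, hom], fun y => ?_⟩
  · change _ = B * P1 _ p
    rw [hP1, L.mul_res ((hp x).1 p)]
  · have se := M.HT_stab_Alg (V₁ := V₁) (alg_iff.1 he.alg)
    refine ⟨res B e, ⟨fun γ => ?_, fun p x => ?_, L.res_adj se se he.adj⟩, L.mul_res se⟩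
    · obtain ⟨γ, rfl⟩ := sρ γ
      rw [MonoidHom.coe_rangeRestrict, hρ]
      exact L.res_comm se (hT γ) (he.alg γ)
    · obtain ⟨x, rfl⟩ := sf x
      change _ * P1 _ p = P1 _ p * _
      rw [hP1]
      exact L.res_comm se ((hp x).1 p) (he.comm p x)
  · refine (Cv.rmap_map D ρ.rangeRestrict).hol_of sf fun x => ?_
    simp only [ho1]
    exact (LinearMap.toContinuousLinearMap (mulVecLin C)).differentiableAt.comp _ (T.hol x)
  · obtain ⟨γ, rfl⟩ := sρ γ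
    obtain ⟨x, rfl⟩ := sf x
    rw [← Cv.map_smul, ho1, ho1]
    exact eo γ x
  · obtain ⟨x, rfl⟩ := sf x
    refine L.inj ?_
    change B *ᵥ (P1 _ w *ᵥ _) = B *ᵥ _
    rw [hP1, ho1, mulVec_mulVec _ B, ← L.mul_res ((hp x).1 w), ← mulVec_mulVec, hom, T.top]
  · obtain ⟨γ, rfl⟩ := sρ γ
    obtain ⟨l, hl⟩ := hγ
    have hN : (γ : GL n ℤ) ∈ M.Nn V.Γ V₁ := ⟨γ.2, l, fun v hv => by
      refine Submodule.span_induction (p := fun v _ => cx (γ : GL n ℤ) *ᵥ v = l • v) ?_ (by simp)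
        (fun a b _ _ ha hb => by rw [mulVec_add, ha, hb, smul_add])
        (fun c a _ ha => by rw [mulVec_smul, ha, smul_comm]) hv
      rintro _ ⟨x, rfl⟩
      have := hl (Cv.map ρ.rangeRestrict x)
      rw [ho1, MonoidHom.coe_rangeRestrict] at this
      rw [← hom, mulVec_mulVec _ _ B, hB, ← mulVec_mulVec, this, mulVec_smul]⟩
    refine ⟨fun δ => ?_, fun p x => ?_⟩
    · obtain ⟨δ, rfl⟩ := sρ δ
      rw [MonoidHom.coe_rangeRestrict, MonoidHom.coe_rangeRestrict, hρ, hρ]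
      exact M.Nn_res_comm hV L hN δ.2
    · obtain ⟨x, rfl⟩ := sf x
      change _ * P1 _ p = P1 _ p * _
      rw [MonoidHom.coe_rangeRestrict, hρ, hP1]
      exact (hp x).2.2 _ hN p
  · have e : (⟨y, 1⟩ : W.Bt) = Cv.map ρ.rangeRestrict ⟨y, 1⟩ := Cv.ext rfl (map_one _).symm
    rw [Pk.N, Pk.N, e, hh', ho1]
    conv_rhs => rw [← hom]
    simp only [qf, star_mulVec, dotProduct_mulVec, vecMul_vecMul, Matrix.mul_assoc]

/-- HULL -/
theorem hull (V : Pk D n w) (P : Prp D q) {om : V.Bt → n → ℂ} (T : V.Top om) :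
    ∃ (k : ℕ) (W : Pk D (Fin k) w) (om1 : W.Bt → Fin k → ℂ) (B : Matrix n (Fin k) ℂ)
      (f : V.Bt → W.Bt), W.Top om1 ∧ W.Hull om1 ∧ Function.Injective B.mulVec ∧
      Function.Surjective f ∧ Continuous f ∧ (∀ x, (f x).y = x.y) ∧ (∀ x, om x = B *ᵥ om1 (f x)) ∧
      W.Q = Bᴴ * V.Q * B ∧ (∀ p x, V.P p x * B = B * W.P p (f x)) ∧ (∀ y, W.N om1 y = V.N om y) ∧
      ∀ e, V.Ed e → ∃ e1, W.Ed e1 ∧ e * B = B * e1 := by
  obtain ⟨k, W, om1, B, f, R, a, b, c, d⟩ := V.hull' P T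
  exact ⟨k, W, om1, B, f, a, b, R.inj, R.surj, R.cont, R.y, c, R.Q, R.P, d, R.ed⟩

end Pk

end

end Pool.Agent.Lib.MP_5c318e_ag.G
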