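import Pool.Agent.Lib.MP_5c318e_ag.G.RedF
import Pool.Agent.Lib.MP_5c318e_ag.G.Hull
import Pool.Agent.Lib.MP_5c318e_ag.W.Conn

/-! From a variation with a section of the top piece to the hull package on a finite chart. -/

set_option autoImplicit false
set_option linter.unusedSectionVars false

namespace Pool.Agent.Lib.MP_5c318e_ag.G

open Filter Topology Set Matrix Complex
open Pool.Agent.Lib.MP_5c318e_ag.V

noncomputable section

variable {ι : Type} [Fintype ι] {n : Type} [Fintype n] [DecidableEq n] {w : ℕ}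
  {S : Type} [TopologicalSpace S] [MeasurableSpace S] [T2Space S] [SigmaCompactSpace S]
  {D : RD ι S} {A : Type} [NormedAddCommGroup A] [NormedSpace ℂ A] {U : Set A}

theorem prp_of_cov (C : D.Cov) : Prp D fun z => MvPolynomial.eval z C.Δ :=
  ⟨polyG_mv _, C.Δ_ne, fun _ hK hs => C.cpt hK hs⟩

theorem prp_of_fini {F : Type} [DecidableEq ι] [Field F] [Algebra ℂ F] (c : Cht ι F)
    (h : Fini (Algebra.ofId ℂ c.O) c.z) : Prp c.D fun z => MvPolynomial.eval z h.Δ := by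
  obtain ⟨C, -, e, -⟩ := c.cov h
  exact e ▸ prp_of_cov C

theorem Pk.Sub.full {k : Type} [Fintype k] [DecidableEq k] {V : Pk D n w} {W : Pk D k w}
    {B : Matrix n k ℂ} {f : V.Bt → W.Bt} (R : Pk.Sub V W B f) {om : V.Bt → n → ℂ}
    {om1 : W.Bt → k → ℂ} (T : W.Top om1) (e : ∀ x, om x = B *ᵥ om1 (f x))
    (hF : K.Full V.rd w V.P om) : K.Full W.rd w W.P om1 := fun y ξ => by
  obtain ⟨x, rfl⟩ := R.surj y
  obtain ⟨c, hc⟩ := hF x ξ
  refine ⟨c, R.inj ?_⟩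
  have a : (fun z => om (V.rd.sec x z)) =ᶠ[𝓝 (V.rd.π x)]
      fun z => B *ᵥ om1 (W.rd.sec (f x) z) := by
    filter_upwards [R.rmap.sec x] with z hz
    rw [e, hz]
  rw [a.fderiv_eq, R.rmap.eq x, fderiv_mulVec _ (T.hol (f x)), mulVec_mulVec, R.P,
    ← mulVec_mulVec, e] at hc
  exact hc.trans (mulVec_smul _ _ _).symm

/-- the Hodge line: a nowhere vanishing full section of the top piece with the hull property -/
structure HL (V : Pk D n w) (om : V.Bt → n → ℂ) : Prop where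
  top : V.Top om
  ne : ∀ x, om x ≠ 0
  full : K.Full V.rd w V.P om
  hull : V.Hull om

theorem Pk.exists_hl {q : (ι → ℂ) → ℂ} (P : Prp D q) {V : Pk D n w} {om : V.Bt → n → ℂ}
    (T : V.Top om) (hne : ∀ x, om x ≠ 0) (hF : K.Full V.rd w V.P om) :
    ∃ (k : ℕ) (W : Pk D (Fin k) w) (om1 : W.Bt → Fin k → ℂ), HL W om1 ∧
      ∀ y, W.N om1 y = V.N om y := by
  obtain ⟨k, W, om1, B, f, R, T1, H, e, hN⟩ := V.hull' P T
  refine ⟨k, W, om1, ⟨T1, fun y h => ?_, R.full T1 e hF, H⟩, hN⟩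
  obtain ⟨x, rfl⟩ := R.surj y
  exact hne x (by rw [e, h, mulVec_zero])

theorem exists_hl [PreconnectedSpace S] [Nonempty S] {q : (ι → ℂ) → ℂ} (P : Prp D q)
    (V : VHS A U n w) (j : S → A) (hj : ∀ y, Plot U (fun z => j (D.sec y z)) (D.π y))
    {u : S → n → ℂ} (hu : ∀ y, DifferentiableAt ℂ
      (fun z => cx (V.κ (j y) (j (D.sec y z))) *ᵥ u (D.sec y z)) (D.π y))
    (ht : ∀ y, V.π w (j y) *ᵥ u y = u y) (hne : ∀ y, u y ≠ 0)
    (hF : ∀ y ξ, ∃ c : ℂ, V.π w (j y) *ᵥ fderiv ℂ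
      (fun z => cx (V.κ (j y) (j (D.sec y z))) *ᵥ u (D.sec y z)) (D.π y) ξ = c • u y) :
    ∃ (k : ℕ) (W : Pk D (Fin k) w) (om : W.Bt → Fin k → ℂ), HL W om ∧
      ∀ y, W.N om y = (qf (V.H (j y)) (u y) (u y)).re := by
  obtain ⟨W, g, R⟩ := exists_red V j hj
  obtain ⟨T, hN⟩ := R.top hu ht
  obtain ⟨k, W1, om, H, e⟩ := Pk.exists_hl P T (Red.ne u hne) (R.full hu hF)
  exact ⟨k, W1, om, H, fun y => (e y).trans (hN y)⟩

/-- the same on a finite chart -/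
theorem exists_hl_cht {F : Type} [DecidableEq ι] [Field F] [Algebra ℂ F] (c : Cht ι F)
    (h : Fini (Algebra.ofId ℂ c.O) c.z) (V : VHS A U n w) (j : Pt c.O → A)
    (hj : ∀ y, Plot U (fun z => j (c.D.sec y z)) (c.D.π y))
    {u : Pt c.O → n → ℂ} (hu : ∀ y, DifferentiableAt ℂ
      (fun z => cx (V.κ (j y) (j (c.D.sec y z))) *ᵥ u (c.D.sec y z)) (c.D.π y))
    (ht : ∀ y, V.π w (j y) *ᵥ u y = u y) (hne : ∀ y, u y ≠ 0)
    (hF : ∀ y ξ, ∃ a : ℂ, V.π w (j y) *ᵥ fderiv ℂ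
      (fun z => cx (V.κ (j y) (j (c.D.sec y z))) *ᵥ u (c.D.sec y z)) (c.D.π y) ξ = a • u y) :
    ∃ (k : ℕ) (W : Pk c.D (Fin k) w) (om : W.Bt → Fin k → ℂ), HL W om ∧
      ∀ y, W.N om y = (qf (V.H (j y)) (u y) (u y)).re :=
  haveI := c.preconnected h
  haveI := c.nonempty
  exists_hl (prp_of_fini c h) V j hj hu ht hne hF

end

end Pool.Agent.Lib.MP_5c318e_ag.G
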