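import Mathlib

/-! The covering space attached to a transport of germs with values in a group. -/

set_option autoImplicit false

namespace Pool.Agent.Lib.MP_5c318e_ag.G

open Filter Topology Set

noncomputable section

/-- a transport of germs on `S`: `κ y y'` carries the frame at `y'` to the frame at `y` -/
structure Coc (S Γ : Type) [TopologicalSpace S] [Group Γ] where
  κ : S → S → Γ
  self : ∀ y, κ y y = 1
  coc : ∀ y, ∀ᶠ y' in 𝓝 y, ∀ᶠ y'' in 𝓝 y', κ y y'' = κ y y' * κ y' y''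

variable {S Γ Γ' : Type} [TopologicalSpace S] [Group Γ] [Group Γ']

/-- the space of frames -/
@[ext] structure Cv (c : Coc S Γ) where
  y : S
  g : Γ

/-- push forward along a homomorphism -/
def Coc.map (c : Coc S Γ) (f : Γ →* Γ') : Coc S Γ' where
  κ := fun y y' => f (c.κ y y')
  self := fun y => by rw [c.self, map_one]
  coc := fun y => (c.coc y).mono fun _ h => h.mono fun _ h => by rw [h, map_mul]

/-- pull back along a continuous map -/
def Coc.comap (c : Coc S Γ) {T : Type} [TopologicalSpace T] (j : T → S) (hj : Continuous j) :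
    Coc T Γ where
  κ := fun y y' => c.κ (j y) (j y')
  self := fun _ => c.self _
  coc := fun y => (hj.continuousAt.eventually (c.coc (j y))).mono fun _ h =>
    hj.continuousAt.eventually h

/-- the set on which the frame at `a` is flat -/
def Coc.bs (c : Coc S Γ) (a : S) : Set S := {y | ∀ᶠ y' in 𝓝 y, c.κ a y' = c.κ a y * c.κ y y'}

theorem Coc.mem_bs (c : Coc S Γ) (a : S) : a ∈ c.bs a :=
  Eventually.of_forall fun y => by rw [c.self, one_mul]

theorem Coc.bs_nhds (c : Coc S Γ) (a : S) : c.bs a ∈ 𝓝 a := c.coc a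

theorem Coc.isOpen_bs (c : Coc S Γ) (a : S) : IsOpen (c.bs a) := by
  rw [isOpen_iff_mem_nhds]
  intro y hy
  filter_upwards [Eventually.eventually_nhds hy, hy, c.coc y] with y2 e1 e2 e3
  filter_upwards [e1, e3] with y3 f1 f2
  rw [f1, f2, e2, mul_assoc]

namespace Cv

variable {c : Coc S Γ}

/-- the sheet through `x` -/
def lift (x : Cv c) (y : S) : Cv c := ⟨y, x.g * c.κ x.y y⟩

@[simp] theorem lift_y (x : Cv c) (y : S) : (x.lift y).y = y := rfl

@[simp] theorem lift_g (x : Cv c) (y : S) : (x.lift y).g = x.g * c.κ x.y y := rfl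

@[simp] theorem lift_self (x : Cv c) : x.lift x.y = x := by
  ext1
  · rfl
  · rw [lift_g, c.self, mul_one]

theorem lift_lift (x : Cv c) {y : S} (hy : y ∈ c.bs x.y) :
    (x.lift y).lift =ᶠ[𝓝 y] x.lift := by
  filter_upwards [hy] with y' h
  ext1
  · rfl
  · simp [h, mul_assoc]

instance : TopologicalSpace (Cv c) where
  IsOpen U := ∀ x ∈ U, ∀ᶠ y in 𝓝 x.y, x.lift y ∈ U
  isOpen_univ := fun _ _ => Eventually.of_forall fun _ => trivial
  isOpen_inter := fun _ _ h1 h2 x hx => (h1 x hx.1).and (h2 x hx.2)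
  isOpen_sUnion := fun _ h x ⟨U, hU, hx⟩ => (h U hU x hx).mono fun _ hy => ⟨U, hU, hy⟩

theorem isOpen_iff {U : Set (Cv c)} : IsOpen U ↔ ∀ x ∈ U, ∀ᶠ y in 𝓝 x.y, x.lift y ∈ U := Iff.rfl

theorem nhds_eq (x : Cv c) : 𝓝 x = map x.lift (𝓝 x.y) := by
  refine le_antisymm (fun W hW => ?_) fun W hW => ?_
  · refine mem_nhds_iff.2 ⟨{x' | ∀ᶠ y in 𝓝 x'.y, x'.lift y ∈ W}, fun x' h => ?_, ?_, hW⟩
    · simpa using h.self_of_nhds
    · refine isOpen_iff.2 fun x' h => ?_
      filter_upwards [Eventually.eventually_nhds h, c.bs_nhds x'.y] with y h1 h2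
      filter_upwards [h1, lift_lift x' h2] with y' a b
      exact b ▸ a
  · obtain ⟨U, hU, o, hx⟩ := mem_nhds_iff.1 hW
    exact (o x hx).mono fun _ h => hU h

theorem eventually_iff {x : Cv c} {p : Cv c → Prop} :
    (∀ᶠ x' in 𝓝 x, p x') ↔ ∀ᶠ y in 𝓝 x.y, p (x.lift y) := by
  rw [nhds_eq, eventually_map]

theorem tendsto_lift (x : Cv c) : Tendsto x.lift (𝓝 x.y) (𝓝 x) := (nhds_eq x).ge

theorem ev_lift (x : Cv c) : ∀ᶠ x' in 𝓝 x, x.lift x'.y = x' :=
  eventually_iff.2 (Eventually.of_forall fun _ => rfl)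

theorem ev_g (x : Cv c) : ∀ᶠ x' in 𝓝 x, x'.g = x.g * c.κ x.y x'.y :=
  eventually_iff.2 (Eventually.of_forall fun _ => rfl)

theorem continuousAt_iff {X : Type*} [TopologicalSpace X] {F : Cv c → X} {x : Cv c} :
    ContinuousAt F x ↔ ContinuousAt (fun y => F (x.lift y)) x.y := by
  rw [ContinuousAt, ContinuousAt, nhds_eq, tendsto_map'_iff, lift_self]
  rfl

theorem continuous_y : Continuous (Cv.y : Cv c → S) :=
  continuous_iff_continuousAt.2 fun _ => continuousAt_iff.2 continuousAt_id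

/-- maps into the cover -/
theorem tendsto_iff {X : Type*} {l : Filter X} {f : X → Cv c} {x : Cv c} :
    Tendsto f l (𝓝 x) ↔ Tendsto (fun t => (f t).y) l (𝓝 x.y) ∧
      ∀ᶠ t in l, (f t).g = x.g * c.κ x.y (f t).y := by
  refine ⟨fun h => ⟨(continuous_y.tendsto x).comp h, h.eventually (ev_g x)⟩, fun h => ?_⟩
  refine ((tendsto_lift x).comp h.1).congr' (h.2.mono fun t ht => ?_)
  exact Cv.ext rfl ht.symm

theorem continuousAt_lift (x : Cv c) {y : S} (hy : y ∈ c.bs x.y) : ContinuousAt x.lift y :=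
  (tendsto_lift (x.lift y)).congr' (lift_lift x hy)

theorem continuousOn_lift (x : Cv c) : ContinuousOn x.lift (c.bs x.y) :=
  fun _ hy => (continuousAt_lift x hy).continuousWithinAt

/-- the sheet number over `bs a` -/
def co (a : S) (x : Cv c) : Γ := x.g * (c.κ a x.y)⁻¹

theorem ev_co {a : S} {x : Cv c} (hx : x.y ∈ c.bs a) : ∀ᶠ x' in 𝓝 x, co a x' = co a x := by
  refine eventually_iff.2 ?_
  filter_upwards [hx] with y h
  simp [co, h]

theorem lift_co (a : S) (x : Cv c) : (⟨a, co a x⟩ : Cv c).lift x.y = x :=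
  Cv.ext rfl (by simp [co])

@[simp] theorem co_lift (x : Cv c) (y : S) : co x.y (x.lift y) = x.g := by simp [co]

theorem isCoveringMap : IsCoveringMap (Cv.y : Cv c → S) := by
  let : TopologicalSpace Γ := ⊥
  have : DiscreteTopology Γ := ⟨rfl⟩
  refine IsCoveringMap.mk _ (fun _ => Γ) (fun a =>
    { toFun := fun x => (x.y, co a x)
      invFun := fun p => (⟨a, p.2⟩ : Cv c).lift p.1
      source := Cv.y ⁻¹' c.bs a
      target := c.bs a ×ˢ univ
      map_source' := fun x hx => ⟨hx, trivial⟩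
      map_target' := fun p hp => hp.1
      left_inv' := fun x _ => lift_co a x
      right_inv' := fun p _ => Prod.ext rfl (co_lift ⟨a, p.2⟩ p.1)
      open_source := (c.isOpen_bs a).preimage continuous_y
      open_target := (c.isOpen_bs a).prod isOpen_univ
      continuousOn_toFun := fun x hx => (continuous_y.continuousAt.prodMk
        (continuousAt_const.congr ((ev_co hx).mono fun _ h => h.symm))).continuousWithinAt
      continuousOn_invFun := fun p hp => ContinuousAt.continuousWithinAt ?_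
      baseSet := c.bs a
      open_baseSet := c.isOpen_bs a
      source_eq := rfl
      target_eq := rfl
      proj_toFun := fun _ _ => rfl }) fun a => c.mem_bs a
  have e : ∀ᶠ p' : S × Γ in 𝓝 p, p'.2 = p.2 :=
    continuous_snd.continuousAt.eventually (p := fun x => x = p.2) (by simp [nhds_discrete])
  refine ((continuousAt_lift (⟨a, p.2⟩ : Cv c) hp.1).comp continuous_fst.continuousAt).congr ?_
  exact e.mono fun p' h => by simp only [Function.comp, h]

theorem isLocalHomeomorph : IsLocalHomeomorph (Cv.y : Cv c → S) := isCoveringMap.isLocalHomeomorph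

instance [T2Space S] : T2Space (Cv c) :=
  ⟨fun x x' h => by
    by_cases hy : x.y = x'.y
    · exact isCoveringMap.isSeparatedMap x x' hy h
    · exact separated_by_continuous continuous_y hy⟩

/-- the fibre over `y` -/
def fib (c : Coc S Γ) (y : S) : Γ ≃ (Cv.y : Cv c → S) ⁻¹' {y} where
  toFun g := ⟨⟨y, g⟩, rfl⟩
  invFun x := x.1.g
  left_inv _ := rfl
  right_inv x := Subtype.ext (Cv.ext x.2.symm rfl)

/-- deck transformations -/
instance : MulAction Γ (Cv c) where
  smul γ x := ⟨x.y, γ * x.g⟩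
  one_smul _ := Cv.ext rfl (one_mul _)
  mul_smul _ _ _ := Cv.ext rfl (mul_assoc _ _ _)

@[simp] theorem smul_y (γ : Γ) (x : Cv c) : (γ • x).y = x.y := rfl

@[simp] theorem smul_g (γ : Γ) (x : Cv c) : (γ • x).g = γ * x.g := rfl

theorem smul_lift (γ : Γ) (x : Cv c) (y : S) : γ • x.lift y = (γ • x).lift y :=
  Cv.ext rfl (mul_assoc _ _ _).symm

theorem smul_one' (x : Cv c) : x.g • (⟨x.y, 1⟩ : Cv c) = x := Cv.ext rfl (mul_one _)

instance : ContinuousConstSMul Γ (Cv c) :=
  ⟨fun γ => continuous_iff_continuousAt.2 fun x => continuousAt_iff.2 (by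
    simp only [smul_lift]
    exact continuousAt_lift (γ • x) (c.mem_bs _))⟩

/-- the map of covers given by a homomorphism -/
def map (f : Γ →* Γ') (x : Cv c) : Cv (c.map f) := ⟨x.y, f x.g⟩

@[simp] theorem map_y (f : Γ →* Γ') (x : Cv c) : (x.map f).y = x.y := rfl

@[simp] theorem map_g (f : Γ →* Γ') (x : Cv c) : (x.map f).g = f x.g := rfl

theorem map_lift (f : Γ →* Γ') (x : Cv c) (y : S) : (x.lift y).map f = (x.map f).lift y :=
  Cv.ext rfl (map_mul f _ _)

theorem map_smul (f : Γ →* Γ') (γ : Γ) (x : Cv c) : (γ • x).map f = f γ • x.map f :=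
  Cv.ext rfl (map_mul f _ _)

theorem continuous_map (f : Γ →* Γ') : Continuous (map f : Cv c → Cv (c.map f)) :=
  continuous_iff_continuousAt.2 fun x => continuousAt_iff.2 (by
    simp only [map_lift]
    exact continuousAt_lift (x.map f) ((c.map f).mem_bs _))

theorem isLocalHomeomorph_map (f : Γ →* Γ') : IsLocalHomeomorph (map f : Cv c → Cv (c.map f)) :=
  IsLocalHomeomorph.of_comp (g := Cv.y) isLocalHomeomorph isLocalHomeomorph (continuous_map f)

theorem map_surjective {f : Γ →* Γ'} (hf : Function.Surjective f) :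
    Function.Surjective (map f : Cv c → Cv (c.map f)) := fun x => by
  obtain ⟨g, hg⟩ := hf x.g
  exact ⟨⟨x.y, g⟩, Cv.ext rfl hg⟩

theorem preconnected_map [PreconnectedSpace (Cv c)] {f : Γ →* Γ'} (hf : Function.Surjective f) :
    PreconnectedSpace (Cv (c.map f)) :=
  (map_surjective hf).denseRange.preconnectedSpace (continuous_map f)

theorem preconnected_base [PreconnectedSpace (Cv c)] : PreconnectedSpace S :=
  (show Function.Surjective (Cv.y : Cv c → S) from
    fun y => ⟨⟨y, 1⟩, rfl⟩).denseRange.preconnectedSpace continuous_y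

/-- a closed set over a compact set that meets finitely many sheets near each point is compact -/
theorem isCompact_of_fin [WeaklyLocallyCompactSpace S] [T2Space S] {K : Set S} (hK : IsCompact K)
    {A : Set (Cv c)} (hA : IsClosed A) (hAK : ∀ x ∈ A, x.y ∈ K)
    (hf : ∀ a ∈ K, ∃ F : Set Γ, F.Finite ∧ ∀ᶠ y in 𝓝 a, ∀ g, (⟨a, g⟩ : Cv c).lift y ∈ A → g ∈ F) :
    IsCompact A := by
  choose! F hF hF' using hf
  have : ∀ a ∈ K, ∃ W ∈ 𝓝 a, IsCompact W ∧ W ⊆ c.bs a ∧
      ∀ y ∈ W, ∀ g, (⟨a, g⟩ : Cv c).lift y ∈ A → g ∈ F a := fun a ha => by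
    obtain ⟨W, h1, h2, h3⟩ := local_compact_nhds (inter_mem (c.bs_nhds a) (hF' a ha))
    exact ⟨W, h1, h3, fun y hy => (h2 hy).1, fun y hy => (h2 hy).2⟩
  choose! W h1 h2 h3 h4 using this
  obtain ⟨t, ht, hc⟩ := hK.elim_nhds_subcover W h1
  refine (t.finite_toSet.isCompact_biUnion (f := fun a => ⋃ g ∈ F a, (⟨a, g⟩ : Cv c).lift '' W a)
    fun a ha => (hF a (ht a ha)).isCompact_biUnion fun g _ => (h2 a (ht a ha)).image_of_continuousOn
      ((continuousOn_lift ⟨a, g⟩).mono (h3 a (ht a ha)))).of_isClosed_subset hA fun x hx => ?_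
  obtain ⟨a, ha, hxa⟩ := mem_iUnion₂.1 (hc (hAK x hx))
  refine mem_biUnion ha (mem_biUnion (h4 a (ht a ha) x.y hxa (co a x) ?_) ⟨x.y, hxa, lift_co a x⟩)
  rwa [lift_co]

instance [WeaklyLocallyCompactSpace S] [T2Space S] [SigmaCompactSpace S] [Countable Γ] :
    SigmaCompactSpace (Cv c) := by
  have : ∀ a : S, ∃ W ∈ 𝓝 a, IsCompact W ∧ W ⊆ c.bs a := fun a => by
    obtain ⟨W, h1, h2, h3⟩ := local_compact_nhds (c.bs_nhds a)
    exact ⟨W, h1, h3, h2⟩
  choose W h1 h2 h3 using this
  obtain ⟨t, ht, hc⟩ := countable_cover_nhds_of_sigmaCompact h1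
  have := ht.to_subtype
  refine SigmaCompactSpace.of_countable
    (range fun p : t × Γ => (⟨p.1, p.2⟩ : Cv c).lift '' W p.1) (countable_range _) ?_ ?_
  · rintro _ ⟨p, rfl⟩
    exact (h2 _).image_of_continuousOn ((continuousOn_lift ⟨p.1.1, p.2⟩).mono (h3 _))
  · refine eq_univ_of_forall fun x => ?_
    obtain ⟨a, ha, hxa⟩ := mem_iUnion₂.1 (hc.ge (mem_univ x.y))
    exact ⟨_, ⟨(⟨a, ha⟩, co a x), rfl⟩, x.y, hxa, lift_co a x⟩

instance : MeasurableSpace (Cv c) := borel _

instance : BorelSpace (Cv c) := ⟨rfl⟩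

end Cv

end

end Pool.Agent.Lib.MP_5c318e_ag.G
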