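import Pool.Agent.Lib.MP_5c318e_ag.G.Mult

/-! A plurisubharmonic exhaustion of the monodromy cover. -/

set_option autoImplicit false
set_option linter.unusedSectionVars false

namespace Pool.Agent.Lib.MP_5c318e_ag.G

open Filter Topology Set Matrix Complex
open scoped ContDiff ComplexOrder
open Pool.Agent.Lib.MP_5c318e_ag.V

theorem lev_log_one_add {E : Type*} [NormedAddCommGroup E] [NormedSpace ℂ E] {m n : Type*}
    [Fintype m] [Fintype n] [DecidableEq m] [DecidableEq n] {U : Set E} {h₁ : E → Matrix n n ℂ}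
    {h₂ : E → Matrix m m ℂ} (M₁ : HM U h₁) (M₂ : HM U h₂) {x : E} (hx : x ∈ U) (A : Matrix m n ℂ)
    (ξ : E) : 0 ≤ lev (fun y => Real.log (1 + nsq (h₁ y) (h₂ y) A)) x ξ := by
  have p₁ := M₁.pos x hx
  have p₂ := M₂.pos x hx
  have p := nsq_nonneg p₁ p₂ A
  have s := sm_nsq M₁.toMet M₂.toMet hx (smM_const A)
  have s1 : ContDiffAt ℝ ∞ (fun y => 1 + nsq (h₁ y) (h₂ y) A) x := contDiffAt_const.add s
  have a := norm_d_nsq_flat (ξ := ξ) M₁.toMet M₂.toMet hx A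
  have b := lev_nsq_flat (ξ := ξ) M₁ M₂ hx A
  have c : 0 ≤ lev (fun y => nsq (h₁ y) (h₂ y) A) x ξ := by
    rw [b]
    exact add_nonneg (mul_nonneg zero_le_two (nsq_nonneg p₁ p₂ _))
      (mul_nonneg zero_le_two (nsq_nonneg p₁ p₂ _))
  rw [← b, norm_d_ofReal_sq (s.differentiableAt (by simp))] at a
  rw [lev_log s1 (by positivity), lev_add contDiffAt_const (cd2 s), lev_const, zero_add,
    norm_d_ofReal_sq (s1.differentiableAt (by simp)), fderiv_const_add, sub_nonneg,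
    div_le_div_iff₀ (by positivity) (by positivity)]
  have := mul_le_mul_of_nonneg_right a (show 0 ≤ 1 + nsq (h₁ x) (h₂ x) A by positivity)
  nlinarith

variable {ι : Type} [Fintype ι] {n : Type} [Fintype n] [DecidableEq n] {w : ℕ}
  {S : Type} [TopologicalSpace S] [MeasurableSpace S] [T2Space S] [SigmaCompactSpace S] {D : RD ι S}

theorem Pk.tr0_sm (V : Pk D n w) (x0 : V.Bt) : V.rd.Sm (V.tr0 x0) := fun x => by
  simp only [V.tr0_nsq]
  exact sm_nsq (met_const (V.rd.ch x).open_target (V.pos x0)) (V.gm x).toMet (V.rd.mem_tgt x)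
    (smM_const 1)

theorem Pk.psh_log (V : Pk D n w) (x0 : V.Bt) : V.rd.Psh fun x => Real.log (1 + V.tr0 x0 x) := by
  refine ⟨fun x => (contDiffAt_const.add (V.tr0_sm x0 x)).log
    (add_pos_of_pos_of_nonneg one_pos (V.tr0_nonneg _ _)).ne', fun x ξ => ?_⟩
  simp only [V.tr0_nsq]
  exact lev_log_one_add (hm_const (V.rd.ch x).open_target (V.pos x0)) (V.gm x).hm
    (V.rd.mem_tgt x) 1 ξ

/-- a closed set over a compact set on which the size is bounded is compact -/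
theorem Pk.compact_of_tr0 (V : Pk D n w) (x0 : V.Bt) {K : Set S} (hK : IsCompact K) {A : Set V.Bt}
    (hA : IsClosed A) (hAK : ∀ x ∈ A, x.y ∈ K) {C : ℝ} (hC : ∀ x ∈ A, V.tr0 x0 x ≤ C) :
    IsCompact A := by
  refine Cv.compact_of_fin hK hA hAK fun a _ =>
    ⟨_, V.finite_cx x0 (C * (V.tr0 x0 ⟨a, 1⟩ + 1)), ?_⟩
  have t := ((V.tr0_cont x0).tendsto ⟨a, 1⟩).comp (Cv.tendsto_lift (⟨a, 1⟩ : V.Bt))
  filter_upwards [t.eventually (eventually_le_nhds (lt_add_one _))] with y hy g hg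
  have e : g • (⟨a, 1⟩ : V.Bt).lift y = (⟨a, g⟩ : V.Bt).lift y :=
    Cv.ext rfl (by simp)
  refine (V.nsq_cx_le x0 ((⟨a, 1⟩ : V.Bt).lift y) g).trans ?_
  rw [e]
  exact mul_le_mul (hC _ hg) hy (V.tr0_nonneg _ _) ((V.tr0_nonneg _ _).trans (hC _ hg))

/-- exhaustion of the cover `Bt` itself -/
theorem Pk.exh (V : Pk D n w) {ψ : S → ℝ} (hψ : D.Exh ψ) (x0 : V.Bt) :
    V.rd.Exh fun x => ψ x.y + Real.log (1 + V.tr0 x0 x) := by
  have a : V.rd.Psh fun x => ψ x.y := (Cv.rmap_y D).psh hψ.1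
  have b := V.psh_log x0
  refine ⟨⟨a.1.add b.1, fun x ξ => ?_⟩, fun c => ?_⟩
  · exact (add_nonneg (a.2 x ξ) (b.2 x ξ)).trans (lev_add (a.1.two x) (b.1.two x)).ge
  obtain ⟨m, hm⟩ := (hψ.2 c).bddBelow_image hψ.1.1.cont.continuousOn
  have l : ∀ x, 0 ≤ Real.log (1 + V.tr0 x0 x) := fun x =>
    Real.log_nonneg (le_add_of_nonneg_right (V.tr0_nonneg _ _))
  have k : ∀ x : V.Bt, ψ x.y + Real.log (1 + V.tr0 x0 x) ≤ c → ψ x.y ≤ c := fun x hx =>
    (le_add_of_nonneg_right (l x)).trans hx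
  refine V.compact_of_tr0 x0 (hψ.2 c) (isClosed_le (a.1.add b.1).cont continuous_const) k
    (C := Real.exp (c - m)) fun x hx => ?_
  have h1 : m ≤ ψ x.y := hm ⟨x.y, k x hx, rfl⟩
  have h2 : ψ x.y + Real.log (1 + V.tr0 x0 x) ≤ c := hx
  have h3 := (Real.log_le_iff_le_exp (add_pos_of_pos_of_nonneg one_pos (V.tr0_nonneg x0 x))).1
    (show Real.log (1 + V.tr0 x0 x) ≤ c - m by linarith)
  linarith

end Pool.Agent.Lib.MP_5c318e_ag.G
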