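import Pool.Agent.Lib.MP_5c318e_ag.G.Pk
import Pool.Agent.Lib.MP_5c318e_ag.V.Det
import Pool.Agent.Lib.MP_5c318e_ag.V.Gap

/-! The theorem of the fixed part and the flat orthogonal projector. -/

set_option autoImplicit false
set_option linter.unusedSectionVars false

namespace Pool.Agent.Lib.MP_5c318e_ag.G

open Filter Topology Set Matrix Complex
open scoped ContDiff ComplexOrder
open Pool.Agent.Lib.MP_5c318e_ag.V

noncomputable section

variable {ι : Type} [Fintype ι] {n k m : Type} [Fintype n] [DecidableEq n] [Fintype k]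
  [DecidableEq k] {w : ℕ} {S : Type} [TopologicalSpace S] [MeasurableSpace S]

theorem const_of_derM_rd [PreconnectedSpace S] (D : RD ι S) {f : S → Matrix m k ℂ}
    (hs : ∀ x, SmM (fun z => f (D.sec x z)) (D.π x))
    (h0 : ∀ x ξ, derM (-I) ξ (fun z => f (D.sec x z)) (D.π x) = 0 ∧
      derM I ξ (fun z => f (D.sec x z)) (D.π x) = 0) (x x' : S) : f x = f x' := by
  ext i j
  refine (locConst_of_fderiv D (u := fun x => f x i j) (fun x => (hs x i j).diff)
    fun x => ?_).apply_eq_of_preconnectedSpace x x'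
  ext1 ξ
  rw [← d_add_dbar]
  have a : der (-I) ξ (fun z => f (D.sec x z) i j) (D.π x) = 0 := congrFun (congrFun (h0 x ξ).1 i) j
  have b : der I ξ (fun z => f (D.sec x z) i j) (D.π x) = 0 := congrFun (congrFun (h0 x ξ).2 i) j
  rw [a, b, add_zero]
  rfl

theorem levi_of_locConst (D : RD ι S) {u : S → ℝ} (h : IsLocallyConstant u) (x : S) (ξ : ι → ℂ) :
    lev (fun z => u (D.sec x z)) (D.π x) ξ = 0 := by
  rw [lev_congr (RD.ev_sec (g := fun _ => u x) (h.eventually_eq x)), lev_const]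

variable [T2Space S] [SigmaCompactSpace S] {D : RD ι S} {q : (ι → ℂ) → ℂ}

/-- LIOUVILLE for invariant functions on a cover -/
theorem Prp.liouville_inv (P : Prp D q) {Γ : Type} [Group Γ] [Countable Γ] {c : Coc S Γ}
    {u : Cv c → ℝ} (hi : ∀ (γ : Γ) x, u (γ • x) = u x) (hu : (Cv.rd D c).Psh u) {B : ℝ}
    (hb : ∀ x, u x ≤ B) : IsLocallyConstant u := by
  have e : u = fun x => (fun y => u ⟨y, 1⟩) x.y := funext fun x => (Cv.inv_eq hi x).symm
  rw [e] at hu ⊢
  exact (P.liouville_bdd ((Cv.rmap_y D).psh_of (f := fun y => u ⟨y, 1⟩) Cv.y_surjective hu)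
    fun _ => hb _).comp_continuous Cv.continuous_y

theorem cx_unit (γ : GL n ℤ) : IsUnit (cx γ).det :=
  (isUnit_iff_isUnit_det _).1 (IsUnit.of_mul_eq_one _ (cx_mul_inv γ))

namespace Pk

variable (V : Pk D n w)

/-- the Higgs field at a point of the cover -/
abbrev θ (x : V.Bt) (ξ : ι → ℂ) : Matrix n n ℂ := th (fun z => V.h (V.rd.sec x z)) ξ (V.rd.π x)

/-- its adjoint -/
abbrev θs (x : V.Bt) (ξ : ι → ℂ) : Matrix n n ℂ := ths (fun z => V.h (V.rd.sec x z)) ξ (V.rd.π x)

/-- a flat endomorphism commutes with the Higgs field -/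
theorem fix_th (P : Prp D q) {e : Matrix n n ℂ} (he : V.Alg e) (x : V.Bt) (ξ : ι → ℂ) :
    V.θ x ξ * e = e * V.θ x ξ ∧ V.θs x ξ * e = e * V.θs x ξ := by
  rcases eq_or_ne e 0 with rfl | e0
  · simp
  have K0 : 0 ≤ KK w n := KK_nonneg
  set ε : ℝ := 1 / (2 * (1 + 8 * (KK w n + KK w n))) with hε
  have ε0 : 0 < ε := by positivity
  have ε1 : 2 * ε * (1 + 8 * (KK w n + KK w n)) ≤ 1 := by
    rw [hε]
    field_simp
    exact le_rfl
  have key := fun x ξ => lev_neg_exp (ξ := ξ) (V.gm x) (V.gm x) (V.rd.mem_tgt x) e0 ε0.le ε1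
  have lc : IsLocallyConstant fun x => -Real.exp (-ε * Real.log (nsq (V.h x) (V.h x) e)) := by
    refine P.liouville_inv (B := 0) (fun γ x => ?_) ⟨fun x => ?_, fun x ξ => le_trans ?_ (key x ξ)⟩
      fun x => neg_nonpos.2 (Real.exp_pos _).le
    · have u := cx_unit (γ : GL n ℤ)
      rw [← nsq_gauge u u, V.h_eqv, Matrix.mul_assoc, he, ← Matrix.mul_assoc,
        Matrix.nonsing_inv_mul _ u, Matrix.one_mul]
    · have M := (V.gm x).toMet
      exact (contDiffAt_const.mul ((sm_nsq M M (V.rd.mem_tgt x) (smM_const e)).log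
        (nsq_pos (V.pos _) (V.pos _) e0).ne')).exp.neg
    · have := omA_nonneg (ξ := ξ) (V.gm x).toMet (V.gm x).toMet (V.rd.mem_tgt x) e
      positivity
  have a := key x ξ
  rw [levi_of_locConst V.rd lc] at a
  have b := nonpos_of_mul_nonpos_right a (by positivity)
  have p := V.pos (V.rd.sec x (V.rd.π x))
  rw [omA, div_nonpos_iff] at b
  have c := fun X => nsq_nonneg p p X
  rcases b with b | b
  · exact absurd b.2 (not_le.2 (nsq_pos p p e0))
  · obtain ⟨b1, b2⟩ := (add_eq_zero_iff_of_nonneg (mul_nonneg two_pos.le (c _))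
      (mul_nonneg two_pos.le (c _))).1 (le_antisymm b.1 (add_nonneg (mul_nonneg two_pos.le (c _))
        (mul_nonneg two_pos.le (c _))))
    exact ⟨sub_eq_zero.1 (nsq_eq_zero p p ((mul_eq_zero.1 b1).resolve_left two_ne_zero)),
      sub_eq_zero.1 (nsq_eq_zero p p ((mul_eq_zero.1 b2).resolve_left two_ne_zero))⟩

/-- FIXED PART -/
theorem fix (P : Prp D q) {e : Matrix n n ℂ} (he : V.Alg e) (x x' : V.Bt) :
    V.Y x * e - e * V.Y x = V.Y x' * e - e * V.Y x' ∧
      (V.h x)⁻¹ * eᴴ * V.h x = (V.h x')⁻¹ * eᴴ * V.h x' := by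
  constructor
  · refine const_of_derM_rd V.rd (f := fun x => V.Y x * e - e * V.Y x) (fun x => ?_)
      (fun x ξ => ?_) x x'
    · have s := (V.gm x).smY _ (V.rd.mem_tgt x)
      exact (s.mul (smM_const e)).sub ((smM_const e).mul s)
    · have s := (V.gm x).smY _ (V.rd.mem_tgt x)
      obtain ⟨a, b⟩ := V.fix_th P he x ξ
      constructor
      · rw [derM_sub (s.mul (smM_const e)) ((smM_const e).mul s), derM_mul_const s,
          derM_const_mul _ s, (V.gm x).dY _ (V.rd.mem_tgt x), sub_eq_zero, a]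
      · rw [derM_sub (s.mul (smM_const e)) ((smM_const e).mul s), derM_mul_const s,
          derM_const_mul _ s, (V.gm x).dbarY (V.rd.mem_tgt x), sub_eq_zero, Matrix.neg_mul,
          Matrix.mul_neg, b]
  · refine const_of_derM_rd V.rd (f := fun x => (V.h x)⁻¹ * eᴴ * V.h x) (fun x => ?_)
      (fun x ξ => ?_) x x'
    · have M := (V.gm x).toMet
      exact ((M.sm_inv (V.rd.mem_tgt x)).mul (smM_const _)).mul (M.sm _ (V.rd.mem_tgt x))
    · have M := (V.gm x).toMet
      have hx := V.rd.mem_tgt x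
      have s := M.sm_inv hx
      have u := M.unit hx
      obtain ⟨a, b⟩ := V.fix_th P he x ξ
      have k : ∀ {H T T' : Matrix n n ℂ}, IsUnit H.det → T'ᴴ * H = H * T → T' * e = e * T' →
          (2 : ℂ) • (T * H⁻¹) * eᴴ * H + H⁻¹ * eᴴ * (-2 : ℂ) • (H * T) = 0 :=
        fun {H T T'} u a b => by
        have c : T * H⁻¹ = H⁻¹ * T'ᴴ := by
          have := congrArg (fun X => H⁻¹ * X * H⁻¹) a
          simp only [← Matrix.mul_assoc, Matrix.nonsing_inv_mul _ u, Matrix.one_mul] at this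
          rw [← this, Matrix.mul_assoc _ H, Matrix.mul_nonsing_inv _ u, Matrix.mul_one]
        have d : T'ᴴ * eᴴ = eᴴ * T'ᴴ := by rw [← conjTranspose_mul, ← b, conjTranspose_mul]
        rw [c, ← a, Matrix.smul_mul, Matrix.smul_mul, Matrix.mul_smul, Matrix.mul_assoc H⁻¹, d]
        simp only [Matrix.mul_assoc]
        module
      constructor
      · rw [derM_mul (s.mul (smM_const _)) (M.sm _ hx), derM_mul_const s, M.d_inv hx, M.d_h hx]
        exact k u (M.adj_ths hx) b
      · rw [derM_mul (s.mul (smM_const _)) (M.sm _ hx), derM_mul_const s, M.dbar_inv hx,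
          M.dbar_h hx]
        exact k u (M.adj_th hx) a

variable {V}

theorem Alg.conj {e : Matrix n n ℂ} (he : V.Alg e) (γ : V.Γ) :
    cx γ * e * cx ((γ⁻¹ : V.Γ) : GL n ℤ) = e := by
  rw [← he, Matrix.mul_assoc, V.cx_coe_mul_inv, Matrix.mul_one]

/-- the commutator with the grading element is flat -/
theorem Alg.comm_Y (P : Prp D q) {e : Matrix n n ℂ} (he : V.Alg e) (x : V.Bt) :
    V.Alg (V.Y x * e - e * V.Y x) := fun γ => by
  conv_lhs => rw [(V.fix P he x (γ • x)).1]
  rw [Matrix.sub_mul, Matrix.mul_assoc, he, ← Matrix.mul_assoc, V.Y_eqv, Matrix.mul_assoc e,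
    V.Y_eqv, ← Matrix.mul_assoc e, he, Matrix.mul_sub, Matrix.mul_assoc, Matrix.mul_assoc]

/-- the adjoint of a flat endomorphism is flat -/
theorem Alg.adj (P : Prp D q) {e : Matrix n n ℂ} (he : V.Alg e) (x : V.Bt) :
    V.Alg ((V.h x)⁻¹ * eᴴ * V.h x) := fun γ => by
  conv_lhs => rw [(V.fix P he x (γ • x)).2]
  have u := cx_unit (γ : GL n ℤ)
  have u' : IsUnit (cx (γ : GL n ℤ))ᴴ.det := by
    rw [det_conjTranspose]
    exact u.star
  have a : eᴴ * (cx γ)ᴴ = (cx γ)ᴴ * eᴴ := by rw [← conjTranspose_mul, ← he, conjTranspose_mul]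
  rw [← V.h_eqv γ x, Matrix.mul_inv_rev, Matrix.mul_inv_rev]
  simp only [Matrix.mul_assoc]
  rw [← Matrix.mul_assoc (cx _) (cx _)⁻¹, Matrix.mul_nonsing_inv _ u, Matrix.one_mul,
    ← Matrix.mul_assoc eᴴ (cx _)ᴴ, a, Matrix.mul_assoc, ← Matrix.mul_assoc _ (cx _)ᴴ,
    Matrix.nonsing_inv_mul _ u', Matrix.one_mul]

variable (V)

/-- the orthogonal projector on an invariant subspace with unimodular determinant is flat -/
theorem oprj_eq (P : Prp D q) {B : Matrix n k ℂ} (hB : Function.Injective B.mulVec)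
    (hs : ∀ γ : V.Γ, ∃ r : Matrix k k ℂ, cx (γ : GL n ℤ) * B = B * r ∧ ‖r.det‖ = 1)
    (x x' : V.Bt) :
    oprj (V.h x) B = oprj (V.h x') B := by
  have K0 : 0 ≤ KK w n := KK_nonneg
  set ε : ℝ := 1 / (8 * (KK w n * Fintype.card k) + 1) with hε
  have ε0 : 0 < ε := by positivity
  have ε1 : 8 * ε * (KK w n * Fintype.card k) ≤ 1 := by
    rw [hε, mul_one_div, div_mul_eq_mul_div, div_le_one (by positivity)]
    linarith
  have key := fun x ξ => lev_neg_exp_ld (ξ := ξ) (V.gm x) hB (V.rd.mem_tgt x) ε0.le ε1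
  have lc : IsLocallyConstant fun x => -Real.exp (-ε * Real.log (Bᴴ * V.h x * B).det.re) := by
    refine P.liouville_inv (B := 0) (fun γ x => ?_) ⟨fun x => ?_, fun x ξ => le_trans ?_ (key x ξ)⟩
      fun x => neg_nonpos.2 (Real.exp_pos _).le
    · obtain ⟨r, a, b⟩ := hs γ
      have e : Bᴴ * V.h x * B = rᴴ * (Bᴴ * V.h (γ • x) * B) * r := by
        have a' := congrArg conjTranspose a
        rw [conjTranspose_mul, conjTranspose_mul] at a'
        rw [← V.h_eqv γ x]
        simp only [Matrix.mul_assoc]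
        rw [← a, ← Matrix.mul_assoc rᴴ, ← a', Matrix.mul_assoc]
      rw [e, det_mul _ r, det_mul rᴴ, det_conjTranspose, mul_right_comm, star_def,
        ← normSq_eq_conj_mul_self, normSq_eq_norm_sq, b]
      simp
    · exact (contDiffAt_const.mul (((V.gm x).toMet.sub hB).sm_ld (V.rd.mem_tgt x))).exp.neg
    · have := lev_ld_flat_nonneg (ξ := ξ) (V.gm x).hm hB (V.rd.mem_tgt x)
      positivity
  refine const_of_derM_rd V.rd (f := fun x => oprj (V.h x) B)
    (fun x => sm_oprj (V.gm x).toMet hB (V.rd.mem_tgt x)) (fun x ξ => ?_) x x'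
  have a := (key x ξ).trans (levi_of_locConst V.rd lc x ξ).le
  have b := stable_of_lev (V.gm x).hm hB (V.rd.mem_tgt x)
    (nonpos_of_mul_nonpos_right a (by positivity))
  exact (der_oprj (V.gm x).toMet hB (V.rd.mem_tgt x) b.1 b.2).2

end Pk

end

end Pool.Agent.Lib.MP_5c318e_ag.G
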