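import Pool.Agent.Lib.MP_5c318e_ag.G.Pk
import Pool.Agent.Lib.MP_5c318e_ag.M.Fin

/-! The group of monodromy elements that are scalar on a section; the identity theorem on the
cover. -/

set_option autoImplicit false
set_option linter.unusedSectionVars false

namespace Pool.Agent.Lib.MP_5c318e_ag.G

open Filter Topology Set Matrix Complex
open scoped ContDiff ComplexOrder
open Pool.Agent.Lib.MP_5c318e_ag.V

theorem ident_ball {E F : Type*} [NormedAddCommGroup E] [NormedSpace ℂ E] [NormedAddCommGroup F]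
    [NormedSpace ℂ F] [CompleteSpace F] {f : E → F} {U : Set E} (hU : IsOpen U) (hc : Convex ℝ U)
    (hf : DifferentiableOn ℂ f U) {a b : E} (ha : a ∈ U) (hb : b ∈ U) (h : ∀ᶠ z in 𝓝 a, f z = 0) :
    f b = 0 := by
  let L : ℂ →ᵃ[ℝ] E := ((LinearMap.toSpanSingleton ℂ E (b - a)).restrictScalars ℝ).toAffineMap +
    AffineMap.const ℝ ℂ a
  have e : ∀ t : ℂ, L t = t • (b - a) + a := fun _ => rfl
  have d : Differentiable ℂ L := by
    rw [funext e]
    fun_prop
  have an : AnalyticOnNhd ℂ (fun t => f (L t)) (L ⁻¹' U) :=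
    (hf.comp d.differentiableOn fun _ h => h).analyticOnNhd (hU.preimage d.continuous)
  have l0 : L 0 = a := by simp [e]
  have l1 : L 1 = b := by simp [e]
  have t : Tendsto L (𝓝 0) (𝓝 a) := l0 ▸ d.continuous.tendsto 0
  have := an.eqOn_zero_of_preconnected_of_eventuallyEq_zero
    (hc.affine_preimage L).isPreconnected (z₀ := 0) (by rwa [mem_preimage, l0]) (t.eventually h)
    (show (1 : ℂ) ∈ L ⁻¹' U by rwa [mem_preimage, l1])
  simpa [l1] using this

/-- the identity theorem on a connected Riemann domain -/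
theorem rd_ident {ι : Type} [Fintype ι] {X : Type} [TopologicalSpace X] [MeasurableSpace X]
    [PreconnectedSpace X] {D : RD ι X} {F : Type} [NormedAddCommGroup F] [NormedSpace ℂ F]
    [CompleteSpace F] {f : X → F} (hf : D.Hol f) {x : X} (h : ∀ᶠ y in 𝓝 x, f y = 0) (y : X) :
    f y = 0 := by
  have hc : IsClopen {x | ∀ᶠ y in 𝓝 x, f y = 0} := by
    refine ⟨?_, isOpen_setOfPred_eventually_nhds⟩
    rw [← closure_subset_iff_isClosed]
    intro x hx
    obtain ⟨r, hr, hb⟩ := Metric.isOpen_iff.1 (D.ch x).open_target _ (D.mem_tgt x)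
    have an : DifferentiableOn ℂ (fun z => f (D.sec x z)) (Metric.ball (D.π x) r) := fun z hz => by
      have := hf (D.sec x z)
      rw [RD.π_sec (hb hz)] at this
      exact (this.congr_of_eventuallyEq (RD.germ_f f (hb hz))).differentiableWithinAt
    have nb : (D.ch x).source ∩ D.π ⁻¹' Metric.ball (D.π x) r ∈ 𝓝 x :=
      inter_mem ((D.ch x).open_source.mem_nhds (D.mem_src x))
        (D.cont_π.continuousAt.preimage_mem_nhds (Metric.ball_mem_nhds _ hr))
    obtain ⟨x', ⟨h1, h2⟩, h3⟩ := mem_closure_iff_nhds.1 hx _ nb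
    have t : Tendsto (D.sec x) (𝓝 (D.π x')) (𝓝 x') := by
      have := (RD.sec_contAt (RD.π_mem h1)).tendsto
      rwa [RD.sec_π h1] at this
    filter_upwards [nb] with y hy
    have := ident_ball Metric.isOpen_ball (convex_ball _ _) an h2 hy.2 (t.eventually h3)
    rwa [RD.sec_π hy.1] at this
  rcases isClopen_iff.1 hc with e | e
  · exact absurd (e ▸ h : x ∈ (∅ : Set X)) (notMem_empty x)
  · exact Eventually.self_of_nhds (p := fun y => f y = 0) (eq_univ_iff_forall.1 e y)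

/-- finitely many closed sets that cover a neighbourhood -/
theorem exists_ev_of_cover {X α : Type*} [TopologicalSpace X] {T : Set α} (hT : T.Finite)
    {Z : α → Set X} (hZ : ∀ a, IsClosed (Z a)) {x0 : X} (h : ∀ᶠ x in 𝓝 x0, ∃ a ∈ T, x ∈ Z a) :
    ∃ a x1, ∀ᶠ x in 𝓝 x1, x ∈ Z a := by
  by_contra hn
  push Not at hn
  have d := (hT.image fun a => (Z a)ᶜ).dense_sInter
    (forall_mem_image.2 fun a _ => (hZ a).isOpen_compl)
    (forall_mem_image.2 fun a _ x => mem_closure_iff_frequently.2 (hn a x))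
  obtain ⟨x, ⟨a, ha, hx⟩, h2⟩ := mem_closure_iff_nhds.1 (d x0) _ h
  exact h2 _ ⟨a, ha, rfl⟩ hx

variable {ι : Type} [Fintype ι] {n : Type} [Fintype n] [DecidableEq n] {w : ℕ}
  {S : Type} [TopologicalSpace S] [MeasurableSpace S] [T2Space S] [SigmaCompactSpace S] {D : RD ι S}

theorem Pk.Hull.fix {V : Pk D n w} {om : V.Bt → n → ℂ} (H : V.Hull om) {γ : V.Γ}
    (hγ : V.Sc om γ) (x : V.Bt) : (∀ p, V.P p (γ • x) = V.P p x) ∧ V.h (γ • x) = V.h x := by
  have a : ∀ p, V.P p (γ • x) = V.P p x := fun p => by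
    have := congrArg (· * cx ((γ⁻¹ : V.Γ) : GL n ℤ)) ((V.eqv γ p x).trans ((H γ hγ).2 p x))
    simpa only [Matrix.mul_assoc, V.cx_coe_mul_inv, Matrix.mul_one] using this
  refine ⟨a, ?_⟩
  simp only [Pk.h, hh, wey, a]

theorem Pk.Hull.unitary {V : Pk D n w} {om : V.Bt → n → ℂ} (H : V.Hull om) {γ : V.Γ}
    (hγ : V.Sc om γ) (x : V.Bt) : (cx γ)ᴴ * V.h x * cx γ = V.h x := by
  have := V.h_eqv γ x
  rwa [(H.fix hγ x).2] at this

/-- the group `Nn` is finite and central, fixes `P`, `h`, and acts on `om` by roots of unity -/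
theorem Pk.Hull.fin [Nonempty S] {V : Pk D n w} {om : V.Bt → n → ℂ} (H : V.Hull om) :
    {γ | V.Sc om γ}.Finite ∧ (∀ γ, V.Sc om γ → ∀ x, (∀ p, V.P p (γ • x) = V.P p x) ∧
      V.h (γ • x) = V.h x) ∧ (∀ γ, V.Sc om γ → ∀ δ, γ * δ = δ * γ) ∧
      ∃ n0 > 0, ∀ γ, V.Sc om γ → γ ^ n0 = 1 := by
  let x : V.Bt := ⟨Classical.arbitrary S, 1⟩
  have f1 : {g : GL n ℤ | (cx g)ᴴ * V.h x * cx g = V.h x}.Finite :=
    M.finite_GL (p := fun g => gᴴ * V.h x * g = V.h x) (M.unitary_finite (V.pos x))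
  have f2 : {γ : V.Γ | (cx γ)ᴴ * V.h x * cx γ = V.h x}.Finite :=
    f1.preimage Subtype.val_injective.injOn
  refine ⟨f2.subset fun γ hγ => H.unitary hγ x, fun γ hγ => H.fix hγ, fun γ hγ δ => ?_, ?_⟩
  · have e : cx ((γ * δ : V.Γ) : GL n ℤ) = cx ((δ * γ : V.Γ) : GL n ℤ) := by
      rw [V.cx_coe_mul, V.cx_coe_mul]
      exact (H γ hγ).1 δ
    exact Subtype.ext (cx_inj e)
  obtain ⟨N, hN, K⟩ := M.unitary_order n
  refine ⟨N, hN, fun γ hγ => ?_⟩
  have e : M.cxHom n γ ^ N = 1 := K _ _ (M.isInt_cx (γ : GL n ℤ)) (V.pos x) (H.unitary hγ x)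
  rw [← map_pow, M.cxHom_apply, ← cx_one] at e
  exact Subtype.ext (cx_inj e)

/-- identity theorem on the cover -/
theorem Pk.Top.sc_of_open {V : Pk D n w} {om : V.Bt → n → ℂ} (T : V.Top om) {γ : V.Γ} {x0 : V.Bt}
    (h : ∀ᶠ x in 𝓝 x0, ∃ l : ℂ, cx γ *ᵥ om x = l • om x) : V.Sc om γ := by
  have hol : ∀ l : ℂ, V.rd.Hol fun x => cx γ *ᵥ om x - l • om x := fun l x => by
    have a := ((Matrix.toLin' (cx (γ : GL n ℤ))).toContinuousLinearMap.differentiableAt).comp _
      (T.hol x)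
    exact a.fun_sub ((T.hol x).fun_const_smul l)
  have fin := (Module.End.finite_hasEigenvalue (Matrix.toLin' (cx (γ : GL n ℤ)))).insert 0
  obtain ⟨l, x1, h1⟩ := exists_ev_of_cover fin (Z := fun l => {x | cx γ *ᵥ om x - l • om x = 0})
    (fun l => isClosed_eq (RD.cont_of_sec fun x => (hol l x).continuousAt) continuous_const)
    (h.mono fun x ⟨l, hl⟩ => by
      by_cases e : om x = 0
      · exact ⟨0, mem_insert _ _, by simp [e]⟩
      · exact ⟨l, mem_insert_of_mem _ (Module.End.hasEigenvalue_of_hasEigenvector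
          ⟨Module.End.mem_eigenspace_iff.2 hl, e⟩), sub_eq_zero.2 hl⟩)
  exact ⟨l, fun x => sub_eq_zero.1 (rd_ident (hol l) h1 x)⟩

end Pool.Agent.Lib.MP_5c318e_ag.G
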