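import Pool.Agent.Lib.MP_5c318e_ag.B.Bridge

/-! The norm of the Hodge line as a function on the base: it is real analytic, and near general
points there are holomorphic coordinates of maximal rank that are controlled by its curvature. -/

set_option autoImplicit false
set_option linter.unusedSectionVars false

namespace Pool.Agent.Lib.MP_5c318e_ag.Br

open Complex Matrix Metric Filter Topology Set V G B
open scoped ContDiff ComplexOrder ComplexConjugate

noncomputable section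

variable {ι : Type} [Fintype ι] {n : Type} [Fintype n] [DecidableEq n] {w ν : ℕ}

namespace Ln

section alg

theorem cov_le {h : Matrix n n ℂ} (H : h.PosDef) (μ t : n → ℂ) :
    ‖μ ⬝ᵥ t‖ ^ 2 ≤ hn h (h⁻¹ *ᵥ star μ) * hn h t := by
  have e : qf h (h⁻¹ *ᵥ star μ) t = μ ⬝ᵥ t := by
    rw [qf_mulVec_left, H.inv.isHermitian.eq,
      nonsing_inv_mul _ ((isUnit_iff_isUnit_det _).1 H.isUnit), qf, star_star, one_mulVec]
  rw [← e]
  exact qf_cs H _ _

/-- covectors adapted to a vector `u` and a linear map `φ` -/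
theorem exists_dual {E : Type} [AddCommGroup E] [Module ℂ E] {u : n → ℂ} (hu : u ≠ 0)
    (φ : E →ₗ[ℂ] n → ℂ) (rk : Module.finrank ℂ ((Submodule.span ℂ {u} ⊔ LinearMap.range φ :
      Submodule ℂ (n → ℂ))) = ν + 1) :
    ∃ (l : n → ℂ) (Λ : Matrix (Fin ν) n ℂ) (e : Fin ν → E), l ⬝ᵥ u = 1 ∧ Λ *ᵥ u = 0 ∧
      ∀ k, Λ *ᵥ φ (e k) = Pi.single k 1 := by
  obtain ⟨i, hi⟩ := Function.ne_iff.1 hu
  have hi' : u i ≠ 0 := hi
  let π : (n → ℂ) →ₗ[ℂ] n → ℂ :=
    LinearMap.id - (LinearMap.proj i : (n → ℂ) →ₗ[ℂ] ℂ).smulRight ((u i)⁻¹ • u)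
  have hπ : ∀ v, π v = v - (v i * (u i)⁻¹) • u := fun v => by
    simp [π, smul_smul]
  have e1 : Submodule.span ℂ {u} ⊔ LinearMap.range φ =
      Submodule.span ℂ {u} ⊔ LinearMap.range (π ∘ₗ φ) := by
    refine le_antisymm (sup_le le_sup_left ?_) (sup_le le_sup_left ?_)
    · rintro _ ⟨ξ, rfl⟩
      have : φ ξ = (φ ξ i * (u i)⁻¹) • u + (π ∘ₗ φ) ξ := by
        rw [LinearMap.comp_apply, hπ, add_sub_cancel]
      rw [this]
      exact Submodule.add_mem_sup (Submodule.smul_mem _ _ (Submodule.mem_span_singleton_self u))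
        ⟨ξ, rfl⟩
    · rintro _ ⟨ξ, rfl⟩
      rw [LinearMap.comp_apply, hπ]
      exact Submodule.sub_mem _ (Submodule.mem_sup_right ⟨ξ, rfl⟩) (Submodule.mem_sup_left
        (Submodule.smul_mem _ _ (Submodule.mem_span_singleton_self u)))
  have e2 : Submodule.span ℂ {u} ⊓ LinearMap.range (π ∘ₗ φ) = ⊥ := by
    rw [eq_bot_iff]
    rintro v ⟨h1, ξ, h2⟩
    obtain ⟨c, rfl⟩ := Submodule.mem_span_singleton.1 h1
    have := congrFun h2 i
    rw [LinearMap.comp_apply, hπ] at this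
    simp only [Pi.sub_apply, Pi.smul_apply, smul_eq_mul, inv_mul_cancel_right₀ hi', sub_self] at this
    rw [(mul_eq_zero.1 this.symm).resolve_right hi', zero_smul]
    exact Submodule.zero_mem _
  have e3 := Submodule.finrank_sup_add_finrank_inf_eq (Submodule.span ℂ {u})
    (LinearMap.range (π ∘ₗ φ))
  rw [← e1, rk, e2, finrank_bot, finrank_span_singleton hu] at e3
  let b := Module.finBasisOfFinrankEq ℂ (LinearMap.range (π ∘ₗ φ)) (n := ν) (by omega)
  obtain ⟨g, hg⟩ := LinearMap.exists_extend b.equivFun.toLinearMap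
  choose e he using fun k => (b k).2
  refine ⟨Pi.single i (u i)⁻¹, LinearMap.toMatrix' (g ∘ₗ π), e, ?_, ?_, fun k => ?_⟩
  · rw [single_dotProduct, inv_mul_cancel₀ hi']
  · rw [LinearMap.toMatrix'_mulVec, LinearMap.comp_apply, hπ, mul_inv_cancel₀ hi', one_smul,
      sub_self, map_zero]
  · rw [LinearMap.toMatrix'_mulVec, LinearMap.comp_apply, ← LinearMap.comp_apply π, he]
    have := LinearMap.congr_fun hg (b k)
    rw [LinearMap.comp_apply, Submodule.subtype_apply] at this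
    rw [this]
    funext j
    simp [Pi.single_apply, eq_comm]

/-- affine coordinates on projective space -/
def aff (l : n → ℂ) (Λ : Matrix (Fin ν) n ℂ) (u : n → ℂ) : Fin ν → ℂ := (l ⬝ᵥ u)⁻¹ • Λ *ᵥ u

/-- the numerator of the derivative of the affine coordinates -/
def cv (l : n → ℂ) (Λ : Matrix (Fin ν) n ℂ) (u : n → ℂ) : Matrix (Fin ν) n ℂ :=
  (l ⬝ᵥ u) • Λ - vecMulVec (Λ *ᵥ u) l

theorem cv_mulVec (l : n → ℂ) (Λ : Matrix (Fin ν) n ℂ) (u v : n → ℂ) :
    cv l Λ u *ᵥ v = (l ⬝ᵥ u) • Λ *ᵥ v - (l ⬝ᵥ v) • Λ *ᵥ u := by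
  rw [cv, sub_mulVec, smul_mulVec, vecMulVec_mulVec, op_smul_eq_smul]

theorem cv_self (l : n → ℂ) (Λ : Matrix (Fin ν) n ℂ) (u : n → ℂ) : cv l Λ u *ᵥ u = 0 := by
  rw [cv_mulVec, sub_self]

end alg

section calc1

variable {E : Type} [NormedAddCommGroup E] [NormedSpace ℂ E] {f : E → n → ℂ} {z : E}

theorem has_mulVec {m : Type} [Fintype m] (Λ : Matrix m n ℂ) (hf : DifferentiableAt ℂ f z) :
    HasFDerivAt (fun y => Λ *ᵥ f y)
      ((LinearMap.toContinuousLinearMap Λ.mulVecLin).comp (fderiv ℂ f z)) z :=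
  (LinearMap.toContinuousLinearMap Λ.mulVecLin).hasFDerivAt.comp z hf.hasFDerivAt

theorem has_dot (l : n → ℂ) (hf : DifferentiableAt ℂ f z) : HasFDerivAt (fun y => l ⬝ᵥ f y)
    ((LinearMap.toContinuousLinearMap (dotProductBilin ℂ ℂ l)).comp (fderiv ℂ f z)) z :=
  (LinearMap.toContinuousLinearMap (dotProductBilin ℂ ℂ l)).hasFDerivAt.comp z hf.hasFDerivAt

theorem d_aff {l : n → ℂ} (Λ : Matrix (Fin ν) n ℂ) (hf : DifferentiableAt ℂ f z)
    (h0 : l ⬝ᵥ f z ≠ 0) : DifferentiableAt ℂ (fun y => aff l Λ (f y)) z ∧ ∀ ξ,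
      fderiv ℂ (fun y => aff l Λ (f y)) z ξ =
        ((l ⬝ᵥ f z) ^ 2)⁻¹ • cv l Λ (f z) *ᵥ fderiv ℂ f z ξ := by
  have a := ((hasDerivAt_inv h0).comp_hasFDerivAt z (has_dot l hf)).smul (has_mulVec Λ hf)
  refine ⟨a.differentiableAt, fun ξ => ?_⟩
  refine (congrArg (fun L : E →L[ℂ] Fin ν → ℂ => L ξ) a.fderiv).trans ?_
  rw [cv_mulVec]
  funext i
  simp
  field_simp
  ring

theorem diff_det {m : Type} [Fintype m] [DecidableEq m] {M : E → Matrix m m ℂ}
    (h : ∀ i j, DifferentiableAt ℂ (fun y => M y i j) z) :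
    DifferentiableAt ℂ (fun y => (M y).det) z := by
  simp only [Matrix.det_apply']
  exact DifferentiableAt.fun_sum fun σ _ =>
    (HasFDerivAt.finsetProd fun i _ => (h (σ i) i).hasFDerivAt).differentiableAt.const_mul _

end calc1

section flat

variable {X : Type} [TopologicalSpace X] [MeasurableSpace X] {D : RD ι X} {Q : Matrix n n ℂ}
  {P : ℤ → X → Matrix n n ℂ} {om : X → n → ℂ}

theorem contAt_hn {h : X → Matrix n n ℂ} {v : X → n → ℂ} {x : X} (hh : ContinuousAt h x)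
    (hv : ContinuousAt v x) : ContinuousAt (fun y => hn (h y) (v y)) x :=
  ContinuousAt.comp (g := fun p : Matrix n n ℂ × (n → ℂ) => hn p.1 p.2) (f := fun y => (h y, v y))
    (continuous_re.comp (continuous_snd.star.dotProduct
      (continuous_fst.matrix_mulVec continuous_snd))).continuousAt (hh.prodMk hv)

theorem an_sec (hol : D.Hol om) (x : X) :
    AnalyticOnNhd ℂ (fun z => om (D.sec x z)) (D.ch x).target :=
  osg (D.ch x).open_target ((hmap_sec D x).hol_comp hol)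

theorem hol_fd (hol : D.Hol om) (ξ : ι → ℂ) : D.Hol fun x => D.fd om x ξ := fun x => by
  have a := ((an_sec hol x).fderiv _ (D.mem_tgt x)).differentiableAt.clm_apply
    (differentiableAt_const ξ)
  refine a.congr_of_eventuallyEq ?_
  filter_upwards [RD.tgt_nhds (D.mem_tgt x)] with z hz
  rw [RD.fd, RD.π_sec hz, (RD.germ_f om hz).fderiv_eq]

theorem cont_om (hol : D.Hol om) : Continuous om :=
  RD.cont_of_sec (D := D) fun x => (hol x).continuousAt

/-- the derivative modulo the line is controlled by the curvature -/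
theorem cov_fd (G : GLV D w Q P) (hol : D.Hol om) (top : ∀ x, P w x *ᵥ om x = om x) {x : X}
    (ne : om x ≠ 0) {ξ : ι → ℂ} {c : ℂ} (line : P w x *ᵥ D.fd om x ξ = c • om x) {μ : n → ℂ}
    (hμ : μ ⬝ᵥ om x = 0) : ‖μ ⬝ᵥ D.fd om x ξ‖ ^ 2 ≤
      hn (hh w Q P x) ((hh w Q P x)⁻¹ *ᵥ star μ) * hn (hh w Q P x) (om x) *
        D.levi (fun y => -Real.log (hn (hh w Q P y) (om y))) x ξ := by
  have a := lev_line (om := fun z => om (D.sec x z)) (c := c) (ξ := ξ) (G.lv x) (an_sec hol x)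
    (fun _ _ => top _) (D.mem_tgt x) (by rwa [D.sec_self]) (by rwa [D.sec_self])
  have b := d_top (om := fun z => om (D.sec x z)) (G.lv x) (an_sec hol x) (fun _ _ => top _)
    (D.mem_tgt x) ξ
  simp only [wey, D.sec_self] at a b
  change D.levi (fun y => -Real.log (hn (hh w Q P y) (om y))) x ξ =
    hn (hh w Q P x) _ / hn (hh w Q P x) (om x) at a
  change D.fd om x ξ = P w x *ᵥ D.fd om x ξ + _ at b
  rw [a, b, line, dotProduct_add, dotProduct_smul, hμ, smul_zero, zero_add, mul_assoc,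
    mul_div_cancel₀ _ (hn_pos_of (G.pos x) ne).ne']
  exact cov_le (G.pos x) _ _

theorem exists_max [Nonempty X] (D : RD ι X) (ne : ∀ x, om x ≠ 0) :
    ∃ ν : ℕ, (∀ x, Module.finrank ℂ ((Submodule.span ℂ {om x} ⊔
      LinearMap.range (D.fd om x).toLinearMap : Submodule ℂ (n → ℂ))) ≤ ν + 1) ∧
      ∃ x, Module.finrank ℂ ((Submodule.span ℂ {om x} ⊔
        LinearMap.range (D.fd om x).toLinearMap : Submodule ℂ (n → ℂ))) = ν + 1 := by
  let rk : X → ℕ := fun x => Module.finrank ℂ ((Submodule.span ℂ {om x} ⊔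
    LinearMap.range (D.fd om x).toLinearMap : Submodule ℂ (n → ℂ)))
  have bd : BddAbove (range rk) := ⟨_, by
    rintro _ ⟨x, rfl⟩
    exact Submodule.finrank_le _⟩
  obtain ⟨x1, h1⟩ := Nat.sSup_mem (range_nonempty rk) bd
  have h2 : ∀ x, rk x ≤ rk x1 := fun x => h1 ▸ le_csSup bd ⟨x, rfl⟩
  have h3 : 1 ≤ rk x1 := (finrank_span_singleton (K := ℂ) (ne x1)).ge.trans
    (Submodule.finrank_mono le_sup_left)
  obtain ⟨ν, hν⟩ : ∃ ν, rk x1 = ν + 1 := ⟨rk x1 - 1, by omega⟩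
  exact ⟨ν, fun x => hν ▸ h2 x, x1, hν⟩

/-- coordinates of maximal rank, on the cover -/
theorem low_flat [PreconnectedSpace X] (G : GLV D w Q P) (hol : D.Hol om)
    (top : ∀ x, P w x *ᵥ om x = om x) (ne : ∀ x, om x ≠ 0)
    (line : ∀ x ξ, ∃ c : ℂ, P w x *ᵥ D.fd om x ξ = c • om x) {x1 : X}
    (hν : Module.finrank ℂ ((Submodule.span ℂ {om x1} ⊔
      LinearMap.range (D.fd om x1).toLinearMap : Submodule ℂ (n → ℂ))) = ν + 1)
    {O : Set X} (hO : IsOpen O) (hy : O.Nonempty) : ∃ x0 ∈ O, ∃ (s : X → Fin ν → ℂ) (A : ℝ),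
      Function.Surjective (D.fd s x0) ∧ ∀ᶠ x in 𝓝 x0,
        DifferentiableAt ℂ (fun y => s (D.sec x y)) (D.π x) ∧ ∀ ξ, ‖D.fd s x ξ‖ ^ 2 ≤
          A * D.levi (fun y => -Real.log (hn (hh w Q P y) (om y))) x ξ := by
  obtain ⟨y, hy⟩ := hy
  obtain ⟨l, Λ, e, a1, a2, a3⟩ := exists_dual (ne x1) (D.fd om x1).toLinearMap hν
  let J : X → Matrix (Fin ν) (Fin ν) ℂ := fun x =>
    Matrix.of fun i k => (cv l Λ (om x) *ᵥ D.fd om x (e k)) i
  let f : X → Unit → ℂ := fun x _ => l ⬝ᵥ om x * (J x).det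
  have hf : D.Hol f := fun x => differentiableAt_pi.2 fun _ =>
    (has_dot l (hol x)).differentiableAt.mul (diff_det fun i k => by
      simp only [J, Matrix.of_apply, cv_mulVec, Pi.sub_apply, Pi.smul_apply, smul_eq_mul]
      exact ((has_dot l (hol x)).differentiableAt.mul (differentiableAt_pi.1
        (has_mulVec Λ (hol_fd hol (e k) x)).differentiableAt i)).sub
        ((has_dot l (hol_fd hol (e k) x)).differentiableAt.mul (differentiableAt_pi.1
          (has_mulVec Λ (hol x)).differentiableAt i)))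
  have f1 : f x1 ≠ 0 := fun h => by
    have j : J x1 = 1 := by
      ext i k
      have := congrFun (a3 k) i
      simp only [J, Matrix.of_apply, cv_mulVec, a1, a2, one_smul, smul_zero, sub_zero]
      rw [one_apply, ← Pi.single_apply]
      exact this
    have := congrFun h ()
    simp [f, a1, j] at this
  obtain ⟨x0, m0, f0⟩ : ∃ x0 ∈ O, f x0 ≠ 0 := by
    by_contra h
    push Not at h
    exact f1 (hol_ident hf (mem_of_superset (hO.mem_nhds hy) h) x1)
  have f2 : l ⬝ᵥ om x0 * (J x0).det ≠ 0 := fun h => f0 (funext fun _ => h)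
  have l0 := left_ne_zero_of_mul f2
  have co := cont_om hol
  have cl : Continuous fun x => l ⬝ᵥ om x := continuous_const.dotProduct co
  let μ : X → Fin ν → n → ℂ := fun x i => ((l ⬝ᵥ om x) ^ 2)⁻¹ • cv l Λ (om x) i
  let b : X → Fin ν → ℝ := fun x i =>
    hn (hh w Q P x) ((hh w Q P x)⁻¹ *ᵥ star (μ x i)) * hn (hh w Q P x) (om x)
  have cb : ContinuousAt b x0 := continuousAt_pi.2 fun i => by
    have c1 : ContinuousAt (fun x => (hh w Q P x)⁻¹) x0 :=
      (continuousAt_matrix_inv _ (by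
        rw [Ring.inverse_eq_inv']
        exact continuousAt_inv₀ (G.pos x0).det_pos.ne')).comp G.cont_h.continuousAt
    have c2 : ContinuousAt (fun x => μ x i) x0 :=
      ((cl.pow 2).continuousAt.inv₀ (pow_ne_zero 2 l0)).smul (Continuous.continuousAt (by
        simp only [cv]
        refine continuous_pi fun j => ?_
        simp only [Matrix.sub_apply, Matrix.smul_apply, vecMulVec_apply, smul_eq_mul]
        exact (cl.mul continuous_const).sub (((continuous_apply i).comp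
          (continuous_const.matrix_mulVec co)).mul continuous_const)))
    refine (contAt_hn G.cont_h.continuousAt ?_).mul
      (contAt_hn G.cont_h.continuousAt co.continuousAt)
    exact ContinuousAt.comp (g := fun p : Matrix n n ℂ × (n → ℂ) => p.1 *ᵥ star p.2)
      (f := fun x => ((hh w Q P x)⁻¹, μ x i))
      (continuous_fst.matrix_mulVec continuous_snd.star).continuousAt (c1.prodMk c2)
  have hd : ∀ x, l ⬝ᵥ om x ≠ 0 → DifferentiableAt ℂ (fun y => aff l Λ (om (D.sec x y))) (D.π x) ∧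
      ∀ ξ, D.fd (fun x => aff l Λ (om x)) x ξ =
        ((l ⬝ᵥ om x) ^ 2)⁻¹ • cv l Λ (om x) *ᵥ D.fd om x ξ := fun x hx => by
    have := d_aff (l := l) Λ (hol x) (by rwa [D.sec_self])
    rwa [D.sec_self] at this
  refine ⟨x0, m0, fun x => aff l Λ (om x), ‖b x0‖ + 1, fun v => ?_, ?_⟩
  · obtain ⟨t, ht⟩ := (mulVec_surjective_iff_isUnit.2 ((isUnit_iff_isUnit_det _).2
      (right_ne_zero_of_mul f2).isUnit)) ((l ⬝ᵥ om x0) ^ 2 • v)
    refine ⟨∑ k, t k • e k, ?_⟩
    rw [(hd x0 l0).2, inv_smul_eq_iff₀ (pow_ne_zero 2 l0), ← ht, map_sum, mulVec_sum]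
    funext i
    simp only [map_smul, mulVec_smul, Finset.sum_apply, Pi.smul_apply, smul_eq_mul]
    exact Finset.sum_congr rfl fun k _ => mul_comm _ _
  · filter_upwards [cl.continuousAt.eventually_ne l0,
      cb.norm.eventually_lt continuousAt_const (lt_add_one ‖b x0‖)] with x hx hb
    refine ⟨(hd x hx).1, fun ξ => ?_⟩
    obtain ⟨c, hc⟩ := line x ξ
    have p : 0 ≤ D.levi (fun y => -Real.log (hn (hh w Q P y) (om y))) x ξ :=
      (neg_nonneg.2 (levi_line G.phs G.ax hol top (ne x) hc)).trans_eq (lev_neg (cd2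
        ((sm_norm G.ax hol x).log (by
          rw [D.sec_self]
          exact (hn_pos_of (G.pos x) (ne x)).ne')))).symm
    refine (Real.le_sqrt (norm_nonneg _) (by positivity)).1
      ((pi_norm_le_iff_of_nonneg (Real.sqrt_nonneg _)).2 fun i => Real.le_sqrt_of_sq_le ?_)
    have q := cov_fd G hol top (ne x) hc (μ := μ x i) (by
      have := congrFun (cv_self l Λ (om x)) i
      rw [smul_dotProduct]
      exact smul_eq_zero_of_right _ this)
    rw [smul_dotProduct] at q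
    rw [(hd x hx).2]
    exact q.trans (mul_le_mul_of_nonneg_right
      (((le_abs_self _).trans (norm_le_pi_norm (b x) i)).trans hb.le) p)

end flat

end Ln

variable {S : Type} [TopologicalSpace S] [MeasurableSpace S] [T2Space S] [SigmaCompactSpace S]
  {D : RD ι S} {V : Pk D n w} {om : V.Bt → n → ℂ}

/-- the map `[om]` has rank `ν` at some point -/
def RkAt (V : Pk D n w) (om : V.Bt → n → ℂ) (ν : ℕ) : Prop :=
  ∃ x, Module.finrank ℂ ((Submodule.span ℂ {om x} ⊔ LinearMap.range (V.rd.fd om x).toLinearMap :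
    Submodule ℂ (n → ℂ))) = ν + 1

theorem exists_rk [Nonempty S] (ne : ∀ x, om x ≠ 0) : ∃ ν, Rk V om ν ∧ RkAt V om ν :=
  haveI : Nonempty V.Bt := ⟨⟨Classical.arbitrary S, 1⟩⟩
  Ln.exists_max V.rd ne

theorem ana_N (T : V.Top om) (p : S) : AnalyticAt ℝ (fun z => V.N om (D.sec p z)) (D.π p) := by
  have a := Ln.an_sec T.hol ⟨p, 1⟩ _ (V.rd.mem_tgt ⟨p, 1⟩)
  have b : ∀ i, AnalyticAt ℝ (fun z => om (V.rd.sec ⟨p, 1⟩ z) i) (D.π p) := fun i =>
    (analyticAt_pi_iff.1 a i).restrictScalars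
  refine AnalyticAt.congr ?_ ((Cv.rmap_y D (c := V.c)).germ (V.N om) ⟨p, 1⟩)
  simp only [T.N_eq, qf, T.h_mul]
  simp only [dotProduct, mulVec, Pi.smul_apply, Pi.star_apply]
  refine (reCLM.analyticAt _).comp (Finset.analyticAt_fun_sum _ fun i _ => ?_)
  exact (((conjCLE : ℂ →L[ℝ] ℂ).analyticAt _).comp (b i)).mul (analyticAt_const.mul
    (Finset.analyticAt_fun_sum _ fun j _ => analyticAt_const.mul (b j)))

/-- coordinates of maximal rank that are controlled by the curvature -/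
theorem Line.low (T : V.Top om) (ne : ∀ x, om x ≠ 0) (h : Line V om) (rk : RkAt V om ν)
    {O : Set S} (hO : IsOpen O) (hy : O.Nonempty) : ∃ p0 ∈ O, ∃ (s : S → Fin ν → ℂ) (A : ℝ),
      Function.Surjective (D.fd s p0) ∧ ∀ᶠ p in 𝓝 p0,
        DifferentiableAt ℂ (fun y => s (D.sec p y)) (D.π p) ∧
        ∀ ξ, ‖D.fd s p ξ‖ ^ 2 ≤ A * D.levi (fun q => -Real.log (V.N om q)) p ξ := by
  obtain ⟨x1, h1⟩ := rk
  obtain ⟨x0, m0, s, A, a1, a2⟩ := Ln.low_flat V.glv T.hol T.top ne h h1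
    (hO.preimage Cv.continuous_y) (hy.preimage Cv.y_surjective)
  have g : ∀ p ∈ V.c.bs x0.y, (fun z => s (V.rd.sec (x0.lift p) z)) =ᶠ[𝓝 (D.π p)]
      fun z => s (x0.lift (D.sec p z)) := fun p hp =>
    (Cv.rd_germ D s (x0.lift p)).trans
      (((D.tendsto_sec p).eventually (Cv.lift_lift x0 hp)).mono fun _ e => congrArg s e)
  refine ⟨x0.y, m0, fun p => s (x0.lift p), A, ?_, ?_⟩
  · have := (g _ (V.c.mem_bs _)).fderiv_eq (𝕜 := ℂ)
    rw [Cv.lift_self] at this
    rw [RD.fd, ← this]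
    exact a1
  · filter_upwards [Cv.eventually_iff.1 a2, V.c.bs_nhds x0.y] with p h1 h2
    refine ⟨(g p h2).differentiableAt_iff.1 h1.1, fun ξ => ?_⟩
    have a := (Cv.rmap_y D (c := V.c)).levi (fun y => -Real.log (V.N om y)) (x0.lift p) ξ
    simp only [← hn_eq_N T] at a
    rw [RD.fd, ← (g p h2).fderiv_eq]
    exact (h1.2 ξ).trans_eq (congrArg (A * ·) a)

section pow

variable {Dn : S → ℝ} {c : ℝ} {M : ℕ}

theorem pow_pos' (ne : ∀ x, om x ≠ 0) (hc : 0 < c) (e : ∀ p, Dn p = c * V.N om p ^ M) (p : S) :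
    0 < Dn p := e p ▸ mul_pos hc (pow_pos (N_pos ne p) M)

theorem log_pow_eq (ne : ∀ x, om x ≠ 0) (hc : 0 < c) (e : ∀ p, Dn p = c * V.N om p ^ M) :
    (fun p => -Real.log (Dn p)) = fun p => -Real.log c + M * -Real.log (V.N om p) := by
  funext p
  rw [e, Real.log_mul hc.ne' (pow_pos (N_pos ne p) M).ne', Real.log_pow]
  ring

theorem levi_pow (T : V.Top om) (ne : ∀ x, om x ≠ 0) (hc : 0 < c)
    (e : ∀ p, Dn p = c * V.N om p ^ M) (p : S) (ξ : ι → ℂ) :
    D.levi (fun q => -Real.log (Dn q)) p ξ = M * D.levi (fun q => -Real.log (V.N om q)) p ξ := by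
  have s := (sm_log_N T ne).neg.two p
  rw [log_pow_eq ne hc e]
  exact (lev_add contDiffAt_const (contDiffAt_const.mul s)).trans (by
    rw [lev_const, zero_add]
    exact lev_const_mul _ s)

theorem Line.psh_pow (T : V.Top om) (ne : ∀ x, om x ≠ 0) (h : Line V om) (hc : 0 < c)
    (e : ∀ p, Dn p = c * V.N om p ^ M) : D.Psh fun p => -Real.log (Dn p) :=
  ⟨by
    rw [log_pow_eq ne hc e]
    exact (D.sm_const _).add ((D.sm_const _).mul (sm_log_N T ne).neg), fun p ξ => by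
    rw [levi_pow T ne hc e]
    exact mul_nonneg M.cast_nonneg ((h.psh T ne).2 p ξ)⟩

theorem ana_pow (T : V.Top om) (e : ∀ p, Dn p = c * V.N om p ^ M) (p : S) :
    AnalyticAt ℝ (fun z => Dn (D.sec p z)) (D.π p) := by
  simp only [e]
  exact analyticAt_const.mul ((ana_N T p).pow M)

theorem Line.low_pow (T : V.Top om) (ne : ∀ x, om x ≠ 0) (h : Line V om) (rk : RkAt V om ν)
    (hc : 0 < c) (hM : 0 < M) (e : ∀ p, Dn p = c * V.N om p ^ M) (O : Set S) (hO : IsOpen O)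
    (hy : O.Nonempty) : ∃ p0 ∈ O, ∃ (s : S → Fin ν → ℂ) (A : ℝ),
      Function.Surjective (D.fd s p0) ∧ ∀ᶠ p in 𝓝 p0,
        DifferentiableAt ℂ (fun y => s (D.sec p y)) (D.π p) ∧
        ∀ ξ, ‖D.fd s p ξ‖ ^ 2 ≤ A * D.levi (fun q => -Real.log (Dn q)) p ξ := by
  obtain ⟨p0, m0, s, A, a1, a2⟩ := h.low T ne rk hO hy
  refine ⟨p0, m0, s, A / M, a1, a2.mono fun p hp => ⟨hp.1, fun ξ => ?_⟩⟩
  rw [levi_pow T ne hc e, ← mul_assoc, div_mul_cancel₀ _ (Nat.cast_ne_zero.2 hM.ne')]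
  exact hp.2 ξ

end pow

/-- a flat endomorphism of degree zero that fixes `om` and cuts out its line on a dense set -/
theorem line_of_comm (T : V.Top om) (ne : ∀ x, om x ≠ 0) {e : Matrix n n ℂ}
    (he : ∀ x, e * V.P w x = V.P w x * e) (h1 : ∀ x, e *ᵥ om x = om x)
    (h2 : Dense {x | ∀ v, V.P w x *ᵥ v = v → e *ᵥ v = v → ∃ c : ℂ, v = c • om x}) :
    Line V om := fun x ξ => by
  have d : ∀ x, e *ᵥ V.rd.fd om x ξ = V.rd.fd om x ξ := fun x => by
    have := (Ln.has_mulVec e (T.hol x)).fderiv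
    simp only [h1] at this
    exact (congrArg (fun L : (ι → ℂ) →L[ℂ] n → ℂ => L ξ) this).symm
  obtain ⟨i, hi⟩ := Function.ne_iff.1 (ne x)
  have hi' : om x i ≠ 0 := hi
  have c1 : Continuous fun x => V.P w x *ᵥ V.rd.fd om x ξ :=
    (V.glv.cont_P w).matrix_mulVec (Ln.cont_om (Ln.hol_fd T.hol ξ))
  have c2 := Ln.cont_om T.hol
  have k := Continuous.ext_on h2
    (f := fun x => om x i • V.P w x *ᵥ V.rd.fd om x ξ)
    (g := fun x => (V.P w x *ᵥ V.rd.fd om x ξ) i • om x)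
    (((continuous_apply i).comp c2).smul c1) (((continuous_apply i).comp c1).smul c2) fun y hy => by
      obtain ⟨c, hc⟩ := hy (V.P w y *ᵥ V.rd.fd om y ξ)
        (by rw [mulVec_mulVec, (V.glv.phs y).prj.idem]) (by
          rw [mulVec_mulVec, he, ← mulVec_mulVec, d])
      simp only [hc, smul_smul, Pi.smul_apply, smul_eq_mul, mul_comm]
  refine ⟨(om x i)⁻¹ * (V.P w x *ᵥ V.rd.fd om x ξ) i, ?_⟩
  rw [← smul_smul, ← congrFun k x, smul_smul, inv_mul_cancel₀ hi', one_smul]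

end

end Pool.Agent.Lib.MP_5c318e_ag.Br
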