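import Pool.Agent.Lib.MP_5c318e_ag.G.Pk
import Pool.Agent.Lib.MP_5c318e_ag.M.Fin

/-! The size of the Hodge metric on the monodromy cover; bounded multiplicity. -/

set_option autoImplicit false
set_option linter.unusedSectionVars false

namespace Pool.Agent.Lib.MP_5c318e_ag.G

open Filter Topology Set Matrix Complex
open scoped ContDiff ComplexOrder
open Pool.Agent.Lib.MP_5c318e_ag.V

variable {ι : Type} [Fintype ι] {n : Type} [Fintype n] [DecidableEq n] {w : ℕ}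
  {S : Type} [TopologicalSpace S] [MeasurableSpace S] [T2Space S] [SigmaCompactSpace S] {D : RD ι S}

/-- the size of the Hodge metric against the one at `x0` (file G/Exh) -/
noncomputable def Pk.tr0 (V : Pk D n w) (x0 x : V.Bt) : ℝ := ((V.h x0)⁻¹ * V.h x).trace.re

theorem Pk.tr0_nsq (V : Pk D n w) (x0 x : V.Bt) :
    V.tr0 x0 x = nsq (V.h x0) (V.h x) (1 : Matrix n n ℂ) := by
  simp [Pk.tr0, nsq, ip]

theorem Pk.tr0_nonneg (V : Pk D n w) (x0 x : V.Bt) : 0 ≤ V.tr0 x0 x := by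
  rw [V.tr0_nsq]
  exact nsq_nonneg (V.pos _) (V.pos _) _

theorem Pk.inv_h_mul (V : Pk D n w) (x0 x : V.Bt) :
    (V.h x0)⁻¹ * V.h x = wey (wt w) V.P x0 * wey (wt w) V.P x := by
  have e : wey (wt w) V.P x0 * wey (wt w) V.P x0 = 1 := (V.glv.phs x0).wey_sq
  rw [Pk.h, hh, hh, Matrix.mul_inv_rev, Matrix.inv_eq_left_inv e, Matrix.mul_assoc,
    ← Matrix.mul_assoc V.Q⁻¹, Matrix.nonsing_inv_mul _ (V.glv.phs x0).unit, Matrix.one_mul]

theorem Pk.tr0_symm (V : Pk D n w) (x0 x : V.Bt) : V.tr0 x0 x = V.tr0 x x0 := by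
  rw [Pk.tr0, Pk.tr0, V.inv_h_mul, V.inv_h_mul, trace_mul_comm]

theorem Pk.tr0_ge (V : Pk D n w) (x0 x : V.Bt) : (Fintype.card n : ℝ) ≤ V.tr0 x0 x := by
  have u0 : IsUnit (V.h x0).det := (V.pos x0).det_pos.ne'.isUnit
  have u : IsUnit (V.h x).det := (V.pos x).det_pos.ne'.isUnit
  have c := ip_cs (V.pos x0) (V.pos x) (1 : Matrix n n ℂ) ((V.h x)⁻¹ * V.h x0)
  have a : (V.h x0)⁻¹ * ((V.h x)⁻¹ * V.h x0)ᴴ * V.h x = 1 := by
    rw [conjTranspose_mul, (V.pos x0).isHermitian.eq, (V.pos x).isHermitian.inv.eq,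
      ← Matrix.mul_assoc, Matrix.nonsing_inv_mul _ u0, Matrix.one_mul,
      Matrix.nonsing_inv_mul _ u]
  have b : nsq (V.h x0) (V.h x) ((V.h x)⁻¹ * V.h x0) = V.tr0 x0 x := by
    rw [nsq, ip, a, Matrix.one_mul, V.tr0_symm, Pk.tr0]
  rw [b, ← V.tr0_nsq, ip, a, Matrix.mul_one, trace_one, Complex.norm_natCast, ← sq] at c
  exact (pow_le_pow_iff_left₀ (Nat.cast_nonneg _) (V.tr0_nonneg _ _) two_ne_zero).1 c

theorem Pk.tr0_cont (V : Pk D n w) (x0 : V.Bt) : Continuous (V.tr0 x0) :=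
  Complex.continuous_re.comp (continuous_const.matrix_mul V.glv.cont_h).matrix_trace

theorem Pk.nsq_cx (V : Pk D n w) (x0 x : V.Bt) (γ : V.Γ) :
    nsq (V.h x0) (V.h (γ • x)) (cx γ) = V.tr0 x0 x := by
  rw [nsq, ip, Matrix.mul_assoc (V.h x0)⁻¹, Matrix.mul_assoc (V.h x0)⁻¹, V.h_eqv, Pk.tr0]

theorem Pk.nsq_cx_le (V : Pk D n w) (x0 x : V.Bt) (γ : V.Γ) :
    nsq (V.h x0) (V.h x0) (cx γ) ≤ V.tr0 x0 (γ • x) * V.tr0 x0 x := by
  have := nsq_mul (V.pos x0) (V.pos (γ • x)) (V.pos x0) (1 : Matrix n n ℂ) (cx γ)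
  rwa [Matrix.one_mul, V.nsq_cx, ← V.tr0_nsq, V.tr0_symm] at this

theorem Pk.finite_cx (V : Pk D n w) (x0 : V.Bt) (C : ℝ) :
    {γ : V.Γ | nsq (V.h x0) (V.h x0) (cx γ) ≤ C}.Finite :=
  (M.finite_GL (M.finite_nsq (V.pos x0) (V.pos x0) C)).preimage Subtype.val_injective.injOn

/-- bounded multiplicity -/
theorem Pk.mult (V : Pk D n w) (x0 : V.Bt) (R : ℝ) :
    ∃ M : ℕ, ∀ y, {γ : V.Γ | V.tr0 x0 ⟨y, γ⟩ ≤ R}.encard ≤ M := by
  have hF := V.finite_cx x0 (R * R)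
  refine ⟨_, fun y => le_trans ?_ hF.cast_ncard_eq.ge⟩
  rcases eq_empty_or_nonempty {γ : V.Γ | V.tr0 x0 ⟨y, γ⟩ ≤ R} with h | ⟨δ, hδ⟩
  · simp [h]
  refine encard_le_encard_of_injOn (f := fun γ => γ * δ⁻¹) (fun γ hγ => ?_)
    (mul_left_injective _).injOn
  have e : (γ * δ⁻¹) • (⟨y, δ⟩ : V.Bt) = ⟨y, γ⟩ := Cv.ext rfl (inv_mul_cancel_right γ δ)
  refine (V.nsq_cx_le x0 ⟨y, δ⟩ _).trans ?_
  rw [e]
  exact mul_le_mul hγ hδ (V.tr0_nonneg _ _) ((V.tr0_nonneg _ _).trans hγ)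

/-- sums over a fibre of the cover -/
theorem Pk.tsum_fib (V : Pk D n w) (G : V.Bt → ENNReal) (z : ι → ℂ) :
    ∑' x : V.rd.π ⁻¹' {z}, G x = ∑' y : D.π ⁻¹' {z}, ∑' γ : V.Γ, G ⟨y, γ⟩ := by
  let e : (D.π ⁻¹' {z}) × V.Γ ≃ V.rd.π ⁻¹' {z} :=
    { toFun := fun p => ⟨⟨p.1, p.2⟩, p.1.2⟩
      invFun := fun x => (⟨x.1.y, x.2⟩, x.1.g)
      left_inv := fun _ => rfl
      right_inv := fun _ => rfl }
  rw [← e.tsum_eq, ENNReal.tsum_prod']
  rfl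

theorem Pk.lintegral_le [BorelSpace S] (V : Pk D n w) (x0 : V.Bt) (R : ℝ) :
    ∃ M : ℕ, ∀ F : S → ENNReal, Measurable F →
      ∫⁻ x in {x | V.tr0 x0 x ≤ R}, F x.y ∂V.rd.μ ≤ M * ∫⁻ y, F y ∂D.μ := by
  obtain ⟨M, hM⟩ := V.mult x0 R
  refine ⟨M, fun F hF => ?_⟩
  have hA : MeasurableSet {x | V.tr0 x0 x ≤ R} :=
    (isClosed_le (V.tr0_cont x0) continuous_const).measurableSet
  have hG : Measurable fun x : V.Bt => F x.y := hF.comp Cv.continuous_y.measurable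
  rw [← MeasureTheory.lintegral_indicator hA, V.rd.lintegral_eq (hG.indicator hA),
    D.lintegral_eq hF,
    ← MeasureTheory.lintegral_const_mul' _ _ (ENNReal.natCast_ne_top M)]
  refine MeasureTheory.lintegral_mono fun z => ?_
  simp only
  rw [V.tsum_fib, ← ENNReal.tsum_mul_left]
  refine ENNReal.tsum_le_tsum fun y => ?_
  have e := tsum_subtype {γ : V.Γ | V.tr0 x0 ⟨y, γ⟩ ≤ R} fun _ => F y
  rw [ENNReal.tsum_set_const] at e
  refine le_trans (le_of_eq e.symm) ?_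
  gcongr
  exact_mod_cast hM y

end Pool.Agent.Lib.MP_5c318e_ag.G
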