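import Pool.Agent.Lib.MP_5c318e_ag.G.Pk

/-! Reduction of the structure group to the monodromy group. -/

set_option autoImplicit false
set_option linter.unusedSectionVars false

namespace Pool.Agent.Lib.MP_5c318e_ag.G

open Filter Topology Set Matrix Complex Metric
open scoped ContDiff ComplexOrder
open Pool.Agent.Lib.MP_5c318e_ag.V

noncomputable section

variable {ι : Type} [Fintype ι] {n : Type} [Fintype n] [DecidableEq n] {w : ℕ}

theorem rd_locConn {S : Type} [TopologicalSpace S] [MeasurableSpace S] [BorelSpace S]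
    (D : RD ι S) :
    LocallyConnectedSpace S :=
  locallyConnectedSpace_iff_connected_subsets.2 fun x U hU => by
    obtain ⟨r, r0, hr⟩ := D.exists_rad x hU
    refine ⟨D.sec x '' closedBall (D.π x) r, D.sec_img_nhds x (closedBall_mem_nhds _ r0),
      (convex_closedBall _ r).isPreconnected.image _
        ((D.sec_contOn x).mono fun z hz => (hr hz).1), ?_⟩
    rintro _ ⟨z, hz, rfl⟩
    exact (hr hz).2

/-- a cover has a connected subcover -/
theorem exists_conn {S Γ : Type} [TopologicalSpace S] [Group Γ] [PreconnectedSpace S] [Nonempty S]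
    (c : Coc S Γ) [LocallyConnectedSpace (Cv c)] :
    ∃ (H : Subgroup Γ) (c' : Coc S H) (g0 : S → Γ), PreconnectedSpace (Cv c') ∧
      ∀ y, ∀ᶠ y' in 𝓝 y, (c'.κ y y' : Γ) * g0 y' = g0 y * c.κ y y' := by
  classical
  obtain ⟨y0⟩ := ‹Nonempty S›
  set C : Set (Cv c) := connectedComponent ⟨y0, 1⟩ with hC
  have oC : IsOpen C := isOpen_connectedComponent
  have st : ∀ (γ : Γ) x x', x' ∈ connectedComponent x → γ • x ∈ C → γ • x' ∈ C :=
    fun γ x x' h h' => by
    have a := (continuous_const_smul γ).image_connectedComponent_subset x ⟨x', h, rfl⟩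
    rwa [hC, connectedComponent_eq h']
  have same : ∀ x ∈ C, ∀ x' ∈ C, x' ∈ connectedComponent x := fun x hx x' hx' => by
    rwa [← connectedComponent_eq hx]
  let H : Subgroup Γ :=
    { carrier := {γ | ∀ x ∈ C, γ • x ∈ C}
      mul_mem' := fun {a b} ha hb x hx => by
        rw [mul_smul]
        exact ha _ (hb x hx)
      one_mem' := fun x hx => by rwa [one_smul]
      inv_mem' := fun {a} ha x hx => by
        refine st a⁻¹ (a • x) x (same _ (ha x hx) x hx) ?_
        rwa [inv_smul_smul] }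
  have memH : ∀ (γ : Γ), ∀ x ∈ C, γ • x ∈ C → γ ∈ H := fun γ x hx h x' hx' =>
    st γ x x' (same x hx x' hx') h
  have sur : ∀ y, ∃ g, (⟨y, g⟩ : Cv c) ∈ C := by
    have o1 : IsOpen (Cv.y '' C) := Cv.isCoveringMap.isOpenMap _ oC
    have o2 : IsOpen (Cv.y '' {x : Cv c | ∀ γ : Γ, γ • x ∉ C}) := by
      refine Cv.isCoveringMap.isOpenMap _ (isOpen_iff_mem_nhds.2 fun x hx => ?_)
      filter_upwards [isOpen_connectedComponent.mem_nhds (mem_connectedComponent (x := x))]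
        with x' h γ h'
      refine hx γ (st γ x' x ?_ h')
      rw [← connectedComponent_eq h]
      exact mem_connectedComponent
    have e : (Cv.y '' C)ᶜ = Cv.y '' {x : Cv c | ∀ γ : Γ, γ • x ∉ C} := by
      ext y
      constructor
      · exact fun h => ⟨⟨y, 1⟩, fun γ h' => h ⟨_, h', rfl⟩, rfl⟩
      · rintro ⟨x, hx, rfl⟩ ⟨x', hx', e⟩
        refine hx (x'.g * x.g⁻¹) ?_
        rwa [show (x'.g * x.g⁻¹) • x = x' from Cv.ext e.symm (by simp)]
    have u := IsClopen.eq_univ ⟨isOpen_compl_iff.1 (e ▸ o2), o1⟩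
      ⟨y0, ⟨y0, 1⟩, mem_connectedComponent, rfl⟩
    intro y
    obtain ⟨x, hx, rfl⟩ := u.ge (mem_univ y)
    exact ⟨x.g, hx⟩
  choose g0 hg0 using sur
  have ev : ∀ y, ∀ᶠ y' in 𝓝 y, g0 y * c.κ y y' * (g0 y')⁻¹ ∈ H := fun y => by
    filter_upwards [Cv.eventually_iff.1 (oC.mem_nhds (hg0 y))] with y' h
    refine memH _ _ (hg0 y') ?_
    rwa [show (g0 y * c.κ y y' * (g0 y')⁻¹) • (⟨y', g0 y'⟩ : Cv c) = Cv.lift ⟨y, g0 y⟩ y' from
      Cv.ext rfl (by simp)]
  let c' : Coc S H :=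
    { κ := fun y y' => if h : g0 y * c.κ y y' * (g0 y')⁻¹ ∈ H then ⟨_, h⟩ else 1
      self := fun y => by
        split_ifs
        · ext
          simp [c.self]
        · rfl
      coc := fun y => by
        filter_upwards [ev y, (ev y).eventually_nhds, c.coc y] with y' a b d
        filter_upwards [b, ev y', d] with y'' a' b' d'
        rw [dif_pos a, dif_pos a', dif_pos b']
        ext
        simp [d', mul_assoc] }
  have key : ∀ y, ∀ᶠ y' in 𝓝 y, (c'.κ y y' : Γ) * g0 y' = g0 y * c.κ y y' := fun y =>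
    (ev y).mono fun y' h => by
      change ((if h : g0 y * c.κ y y' * (g0 y')⁻¹ ∈ H then ⟨_, h⟩ else 1 : H) : Γ) * _ = _
      rw [dif_pos h]
      simp
  refine ⟨H, c', g0, ?_, key⟩
  let Φ : Cv c' → Cv c := fun x => ⟨x.y, x.g * g0 x.y⟩
  have cΦ : Continuous Φ := continuous_iff_continuousAt.2 fun x => Cv.continuousAt_iff.2 (by
    refine (Cv.continuousAt_lift (Φ x) (c.mem_bs _)).congr ((key x.y).mono fun y' h => ?_)
    exact Cv.ext rfl (by simp [Φ, mul_assoc, h]))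
  have iΦ : Function.Injective Φ := fun x x' h => by
    have a : x.y = x'.y := congrArg (fun t : Cv c => t.y) h
    have b : (x.g : Γ) * g0 x.y = x'.g * g0 x'.y := congrArg Cv.g h
    rw [a] at b
    exact Cv.ext a (Subtype.ext (mul_right_cancel b))
  have oΦ := (IsLocalHomeomorph.of_comp (f := Φ) (g := Cv.y) Cv.isLocalHomeomorph
    Cv.isLocalHomeomorph cΦ).isOpenEmbedding_of_injective iΦ
  have rΦ : Φ '' univ = C := by
    ext x
    constructor
    · rintro ⟨x, -, rfl⟩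
      exact x.g.2 _ (hg0 x.y)
    · intro hx
      refine ⟨⟨x.y, ⟨x.g * (g0 x.y)⁻¹, memH _ _ (hg0 x.y) ?_⟩⟩, trivial, Cv.ext rfl (by simp [Φ])⟩
      rwa [show (x.g * (g0 x.y)⁻¹) • (⟨x.y, g0 x.y⟩ : Cv c) = x from Cv.ext rfl (by simp)]
  exact ⟨oΦ.isInducing.isPreconnected_image.1 (rΦ ▸ isPreconnected_connectedComponent)⟩

variable {S : Type} [TopologicalSpace S] [MeasurableSpace S] [T2Space S] [SigmaCompactSpace S]
  {D : RD ι S} {A : Type} [NormedAddCommGroup A] [NormedSpace ℂ A] {U : Set A}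

theorem tendsto_of_plot {j : S → A} (hj : ∀ y, Plot U (fun z => j (D.sec y z)) (D.π y)) (y : S) :
    j y ∈ U ∧ Tendsto j (𝓝 y) (𝓝[U] j y) := by
  have hU : ∀ y, j y ∈ U := fun y => by simpa only [D.sec_self] using (hj y).2.self_of_nhds
  exact ⟨hU y, tendsto_nhdsWithin_iff.2 ⟨(RD.cont_of_sec (D := D) fun y =>
    (hj y).1.continuousAt).continuousAt, Eventually.of_forall hU⟩⟩

/-- `W` is `V` pulled back by `j` and read in the flat frame `g` on the cover -/
structure Red (V : VHS A U n w) (j : S → A) (W : Pk D n w) (g : W.Bt → GL n ℤ) : Prop where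
  fr : ∀ x, ∀ᶠ x' in 𝓝 x, g x' = g x * V.κ (j x.y) (j x'.y)
  eqv : ∀ (γ : W.Γ) x, g (γ • x) = γ * g x
  Q : ∀ x, W.Q = (cx (g x)⁻¹)ᴴ * V.ψ (j x.y) * cx (g x)⁻¹
  P : ∀ p x, W.P p x = cx (g x) * V.π p (j x.y) * cx (g x)⁻¹

theorem exists_red [PreconnectedSpace S] [Nonempty S] (V : VHS A U n w) (j : S → A)
    (hj : ∀ y, Plot U (fun z => j (D.sec y z)) (D.π y)) :
    ∃ (W : Pk D n w) (g : W.Bt → GL n ℤ), Red V j W g := by
  have ht := tendsto_of_plot hj
  let c : Coc S (GL n ℤ) :=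
    { κ := fun y y' => V.κ (j y) (j y')
      self := fun y => V.germ.self _ (ht y).1
      coc := fun y => ((ht y).2.eventually (V.germ.coc _ (ht y).1)).mono fun y' h =>
        (ht y').2.eventually h }
  have := rd_locConn (Cv.rd D c)
  obtain ⟨H, c', g0, hc, key⟩ := exists_conn c
  let g : Cv c' → GL n ℤ := fun x => x.g * g0 x.y
  have fr : ∀ x, ∀ᶠ x' in 𝓝 x, g x' = g x * V.κ (j x.y) (j x'.y) := fun x =>
    Cv.eventually_iff.2 ((key x.y).mono fun y' h => by simp [g, mul_assoc, h, c])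
  have eqv : ∀ (γ : H) x, g (γ • x) = γ * g x := fun γ x => by simp [g, mul_assoc]
  let Qf : Cv c' → Matrix n n ℂ := fun x => (cx (g x)⁻¹)ᴴ * V.ψ (j x.y) * cx (g x)⁻¹
  have lc : IsLocallyConstant Qf := (IsLocallyConstant.iff_eventually_eq _).2 fun x => by
    filter_upwards [fr x, ((ht x.y).2.comp Cv.continuous_y.continuousAt).eventually
      (V.flat _ (ht x.y).1)] with x' a b
    simp only [Qf, Function.comp] at b ⊢
    rw [a, b, _root_.mul_inv_rev, cx_mul, conjTranspose_mul]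
    simp only [Matrix.mul_assoc]
    rw [← Matrix.mul_assoc (cx _) (cx _⁻¹), cx_mul_inv, Matrix.one_mul, ← Matrix.mul_assoc (cx _)ᴴ (cx _)ᴴ
      (V.ψ _ * _), ← conjTranspose_mul, cx_mul_inv, conjTranspose_one, Matrix.one_mul]
  obtain ⟨y0⟩ := ‹Nonempty S›
  have hQ : ∀ x, Qf ⟨y0, 1⟩ = Qf x := fun x => lc.apply_eq_of_preconnectedSpace _ _
  refine ⟨{ Γ := H
            c := c'
            Q := Qf ⟨y0, 1⟩
            P := fun p x => cx (g x) * V.π p (j x.y) * cx (g x)⁻¹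
            inv := fun γ => ?_
            glv := ⟨fun x => hQ x ▸ (V.phs _ (ht x.y).1).gauge (cx_mul_inv _), fun x => ?_⟩
            eqv := fun γ p x => ?_
            conn := hc }, g, fr, eqv, hQ, fun _ _ => rfl⟩
  · conv_lhs => rw [hQ (γ • ⟨y0, 1⟩)]
    simp only [Qf, eqv, _root_.mul_inv_rev, cx_mul, conjTranspose_mul, Matrix.mul_assoc, cx_inv_mul,
      Matrix.mul_one, Cv.smul_y]
    rw [← Matrix.mul_assoc, ← conjTranspose_mul, cx_inv_mul, conjTranspose_one, Matrix.one_mul]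
  · have a := ax_conj (V.ax _ _ _ (hj x.y)) (L := cx (g x)) (B := cx (g x)⁻¹) fun p =>
      Eventually.of_forall fun z => by
        rw [← Matrix.mul_assoc, ← Matrix.mul_assoc, cx_inv_mul, Matrix.one_mul]
    refine ax_congr a fun p => ?_
    filter_upwards [((Cv.rd D c').tendsto_sec x).eventually (fr x), (Cv.rmap_y D).sec x] with z b e
    rw [b, e, D.sec_self, _root_.mul_inv_rev, cx_mul (g x), cx_mul _ (g x)⁻¹]
    simp only [Matrix.mul_assoc]
  · simp only [eqv, _root_.mul_inv_rev, cx_mul, Matrix.mul_assoc, cx_inv_mul, Matrix.mul_one,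
      Cv.smul_y]

namespace Red

variable {V : VHS A U n w} {j : S → A} {W : Pk D n w} {g : W.Bt → GL n ℤ}

theorem h (R : Red V j W g) (x : W.Bt) :
    W.h x = (cx (g x)⁻¹)ᴴ * V.H (j x.y) * cx (g x)⁻¹ := by
  have e : wey (wt w) W.P x = cx (g x) * wey (wt w) V.π (j x.y) * cx (g x)⁻¹ := by
    simp only [wey, R.P, Matrix.mul_sum, Matrix.sum_mul, Matrix.mul_smul, Matrix.smul_mul]
  rw [Pk.h, hh, e, R.Q x, VHS.H]
  simp only [Matrix.mul_assoc]
  rw [← Matrix.mul_assoc (cx _) (cx _), cx_inv_mul, Matrix.one_mul]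

theorem qf_h (R : Red V j W g) (x : W.Bt) (u v : n → ℂ) :
    qf (W.h x) (cx (g x) *ᵥ u) (cx (g x) *ᵥ v) = qf (V.H (j x.y)) u v := by
  rw [qf_mulVec_left, qf_mulVec_right, R.h]
  simp only [Matrix.mul_assoc]
  rw [cx_inv_mul, Matrix.mul_one, ← Matrix.mul_assoc, ← conjTranspose_mul, cx_inv_mul,
    conjTranspose_one, Matrix.one_mul]

/-- a section in the reference frames, read in the chart of the cover -/
theorem germ (R : Red V j W g) (u : S → n → ℂ) (x : W.Bt) :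
    (fun z => cx (g (W.rd.sec x z)) *ᵥ u (W.rd.sec x z).y) =ᶠ[𝓝 (D.π x.y)]
      fun z => cx (g x) *ᵥ (cx (V.κ (j x.y) (j (D.sec x.y z))) *ᵥ u (D.sec x.y z)) := by
  filter_upwards [(W.rd.tendsto_sec x).eventually (R.fr x), (Cv.rmap_y D).sec x] with z b e
  rw [b, e, cx_mul, mulVec_mulVec]

theorem top (R : Red V j W g) {u : S → n → ℂ} (hu : ∀ y, DifferentiableAt ℂ
      (fun z => cx (V.κ (j y) (j (D.sec y z))) *ᵥ u (D.sec y z)) (D.π y))
    (ht : ∀ y, V.π w (j y) *ᵥ u y = u y) :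
    W.Top (fun x => cx (g x) *ᵥ u x.y) ∧
      ∀ y, W.N (fun x => cx (g x) *ᵥ u x.y) y = (qf (V.H (j y)) (u y) (u y)).re := by
  refine ⟨⟨fun x => ?_, fun γ x => ?_, fun x => ?_⟩, fun y => ?_⟩
  · refine DifferentiableAt.congr_of_eventuallyEq ?_ (R.germ u x)
    exact (LinearMap.toContinuousLinearMap (mulVecLin (cx (g x)))).differentiableAt.comp _ (hu x.y)
  · rw [R.eqv, cx_mul, mulVec_mulVec, Cv.smul_y]
  · rw [R.P, mulVec_mulVec, Matrix.mul_assoc, cx_inv_mul, Matrix.mul_one, ← mulVec_mulVec, ht]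
  · rw [Pk.N, R.qf_h]

theorem ed [Nonempty S] (R : Red V j W g) (hj : ∀ y, Plot U (fun z => j (D.sec y z)) (D.π y))
    {ε : A → Matrix n n ℂ} (hε : V.End ε) :
    ∃ e, W.Ed e ∧ ∀ x, e = cx (g x) * ε (j x.y) * cx (g x)⁻¹ := by
  have ht := tendsto_of_plot hj
  let f : W.Bt → Matrix n n ℂ := fun x => cx (g x) * ε (j x.y) * cx (g x)⁻¹
  have lc : IsLocallyConstant f := (IsLocallyConstant.iff_eventually_eq _).2 fun x => by
    filter_upwards [R.fr x, ((ht x.y).2.comp Cv.continuous_y.continuousAt).eventually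
      (hε.flat _ (ht x.y).1)] with x' a b
    simp only [f, Function.comp] at b ⊢
    rw [a, _root_.mul_inv_rev, cx_mul, cx_mul, Matrix.mul_assoc (cx (g x)), b]
    simp only [Matrix.mul_assoc]
    rw [← Matrix.mul_assoc (cx _) (cx _⁻¹), cx_mul_inv, Matrix.one_mul]
  obtain ⟨y0⟩ := ‹Nonempty S›
  have hf : ∀ x, f ⟨y0, 1⟩ = f x := fun x => lc.apply_eq_of_preconnectedSpace _ _
  refine ⟨f ⟨y0, 1⟩, ⟨fun γ => ?_, fun p x => ?_, ?_⟩, hf⟩
  · conv_lhs => rw [hf (γ • ⟨y0, 1⟩)]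
    simp only [f, R.eqv, _root_.mul_inv_rev, cx_mul, Matrix.mul_assoc, cx_inv_mul, Matrix.mul_one,
      Cv.smul_y]
  · rw [hf x, R.P]
    simp only [f, Matrix.mul_assoc]
    rw [← Matrix.mul_assoc (cx _⁻¹) (cx _), ← Matrix.mul_assoc (cx _⁻¹) (cx _), cx_inv_mul,
      Matrix.one_mul, Matrix.one_mul, ← Matrix.mul_assoc (ε _), hε.comm _ (ht x.y).1,
      Matrix.mul_assoc]
  · rw [R.Q ⟨y0, 1⟩]
    simp only [f, conjTranspose_mul, Matrix.mul_assoc]
    rw [← Matrix.mul_assoc (cx _)ᴴ (cx _)ᴴ (V.ψ _ * _), ← conjTranspose_mul, cx_inv_mul,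
      conjTranspose_one, Matrix.one_mul, ← Matrix.mul_assoc (cx _⁻¹) (cx _), cx_inv_mul,
      Matrix.one_mul, ← Matrix.mul_assoc (ε _)ᴴ, hε.adj _ (ht y0).1, Matrix.mul_assoc]

end Red

end

end Pool.Agent.Lib.MP_5c318e_ag.G
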