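import Pool.Agent.Lib.MP_5c318e_ag.G.Red
import Pool.Agent.Lib.MP_5c318e_ag.K.KDefs

/-! The fullness property passes to the monodromy cover. -/

set_option autoImplicit false
set_option linter.unusedSectionVars false

namespace Pool.Agent.Lib.MP_5c318e_ag.G

open Filter Topology Set Matrix Complex
open Pool.Agent.Lib.MP_5c318e_ag.V

noncomputable section

variable {ι : Type} [Fintype ι] {n : Type} [Fintype n] [DecidableEq n] {w : ℕ}
  {S : Type} [TopologicalSpace S] [MeasurableSpace S] [T2Space S] [SigmaCompactSpace S]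
  {D : RD ι S} {A : Type} [NormedAddCommGroup A] [NormedSpace ℂ A] {U : Set A}
  {V : VHS A U n w} {j : S → A} {W : Pk D n w} {g : W.Bt → GL n ℤ}

theorem fderiv_mulVec {E m : Type} [NormedAddCommGroup E] [NormedSpace ℂ E] [Fintype m]
    (L : Matrix m n ℂ) {f : E → n → ℂ} {a : E} (h : DifferentiableAt ℂ f a) (ξ : E) :
    fderiv ℂ (fun z => L *ᵥ f z) a ξ = L *ᵥ fderiv ℂ f a ξ := by
  have := ((LinearMap.toContinuousLinearMap (mulVecLin L)).hasFDerivAt.comp a h.hasFDerivAt).fderiv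
  exact congrArg (fun t => t ξ) this

theorem Red.fd (R : Red V j W g) {u : S → n → ℂ} (hu : ∀ y, DifferentiableAt ℂ
      (fun z => cx (V.κ (j y) (j (D.sec y z))) *ᵥ u (D.sec y z)) (D.π y)) (x : W.Bt) (ξ : ι → ℂ) :
    fderiv ℂ (fun z => cx (g (W.rd.sec x z)) *ᵥ u (W.rd.sec x z).y) (W.rd.π x) ξ =
      cx (g x) *ᵥ fderiv ℂ
        (fun z => cx (V.κ (j x.y) (j (D.sec x.y z))) *ᵥ u (D.sec x.y z)) (D.π x.y) ξ := by
  rw [← fderiv_mulVec _ (hu x.y), ← (R.germ u x).fderiv_eq]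
  rfl

theorem Red.full (R : Red V j W g) {u : S → n → ℂ} (hu : ∀ y, DifferentiableAt ℂ
      (fun z => cx (V.κ (j y) (j (D.sec y z))) *ᵥ u (D.sec y z)) (D.π y))
    (hF : ∀ y ξ, ∃ c : ℂ, V.π w (j y) *ᵥ fderiv ℂ
      (fun z => cx (V.κ (j y) (j (D.sec y z))) *ᵥ u (D.sec y z)) (D.π y) ξ = c • u y) :
    K.Full W.rd w W.P fun x => cx (g x) *ᵥ u x.y := fun x ξ => by
  obtain ⟨c, hc⟩ := hF x.y ξ
  refine ⟨c, ?_⟩
  rw [R.fd hu, R.P, mulVec_mulVec, Matrix.mul_assoc, cx_inv_mul, Matrix.mul_one, ← mulVec_mulVec,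
    hc, mulVec_smul]

theorem Red.ne (u : S → n → ℂ) (h : ∀ y, u y ≠ 0) (x : W.Bt) : cx (g x) *ᵥ u x.y ≠ 0 := fun e => by
  have := congrArg (fun v => cx (g x)⁻¹ *ᵥ v) e
  simp only [mulVec_mulVec, cx_inv_mul, one_mulVec, mulVec_zero] at this
  exact h _ this

end

end Pool.Agent.Lib.MP_5c318e_ag.G
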